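import Pool.Agent.H19.OM.Stm3

set_option autoImplicit false

/-!
# Project OM, fourth part: the sum of Q1 tends to `2` ONLY if `k / log log y → ∞` (range `N ≥ y ^ (log log y)^3`)

For `k ≤ C log log y` the primes `p > p₀` are swapped as before, with total cost `O(C / √p₀)`; for the primes `p ≤ p₀`
the Hellinger affinity of two shifts of the product of Poisson laws is at least `exp (- |u - v|^2 / (2 a))`.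
-/

namespace Pool.Agent.H19.OM

open Finset MeasureTheory ProbabilityTheory
open scoped NNReal

/-- (AFF) two shifts of the product of Poisson laws overlap.  Proof: `z = min u v`, `u = z + d`, `v = z + e`, `d i * e i = 0`,
`m = d + e = |u - v|`; replace `φ` by `φ (· + z)`.  With `f = gg a d`, `g = gg a e` (SHI) the difference is at most
`∫ |f - g| ≤ 2 - 2 ∫ min f g`, `(∫ √(f g))² ≤ ∫ min ∫ max ≤ 2 ∫ min`, `f g = gg a m` (disjoint supports),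
`∫ √(gg a m) = ∫ (gg a m (w + m))^(-1/2)` (SHI for a bounded function), which is at least `(∫ gg a m (w + m))^(-1/2)`
(tangent of `x ↦ x^(-1/2)`), `∫ gg a m (w + m) = ∫ (gg a m)² = ∏ cc a (m i) (m i) ≤ exp (∑ m_i² / a)` (GRA) -/
def S_AFF : Prop := ∀ (a : ℝ≥0), 0 < a → ∀ (k : ℕ) (u v : Fin k → ℕ) (φ : (Fin k → ℕ) → ℝ), Bd φ →
  |P a (fun w => φ (w + u)) - P a (fun w => φ (w + v))| ≤ 2 - Real.exp (-(∑ i, ((u i : ℝ) - v i) ^ 2) / a)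

/-- (MOM) second moment of one coordinate over a period, from the Chinese remainder theorem: `E val² ≤ 6 / p`,
`E val ≤ 2 / p` -/
def S_MOM : Prop := ∀ (L : ℕ → ℕ) (S : Finset ℕ), (∀ p ∈ S, p.Prime) →
  (∑ n ∈ range (Mo L S), ((∑ p ∈ S, val p (L p) n : ℕ) : ℝ) ^ 2) / Mo L S ≤
    6 * ∑ p ∈ S, 1 / (p : ℝ) + 4 * (∑ p ∈ S, 1 / (p : ℝ)) ^ 2

/-- (AVG) from (AFF), (MOM): mean over `n` and over the independent `n_1, …, n_k`, `|U - U'|² ≤ 2 |U|² + 2 |U'|²`, the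
periodicity of `val` and Jensen `E exp (-X) ≥ exp (-E X)` -/
def S_AVG : Prop := ∀ (a : ℝ≥0), 0 < a → ∀ (L : ℕ → ℕ) (S : Finset ℕ) (k : ℕ) (V : ℝ), (∀ p ∈ S, p.Prime) →
  6 * ∑ p ∈ S, 1 / (p : ℝ) + 4 * (∑ p ∈ S, 1 / (p : ℝ)) ^ 2 ≤ V → ∀ φ : (Fin k → ℕ) → ℝ, Bd φ →
  |P a (fun w => J L S (fun u => φ (w + u))) - P a (fun w => I L S (fun u => φ (w + u)))| ≤
    2 - Real.exp (-(4 * k * V) / a)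

/-- (SWC) as (SW), with `k ≤ C a` and `K` depending on `C` (`B = 3 C + 1`) -/
def S_SWC : Prop := ∀ C : ℝ, 1 ≤ C → ∃ K : ℝ, 0 ≤ K ∧ ∀ (p k : ℕ) (L : ℕ → ℕ) (a : ℝ≥0), p.Prime → 1 ≤ L p →
  1 ≤ k → 0 < a → (k : ℝ) ≤ C * a → (L p : ℝ) ^ 2 ≤ a → ∀ φ : (Fin k → ℕ) → ℝ, Bd φ →
  |P a (fun w => J L {p} (fun u => φ (w + u))) - P a (fun w => I L {p} (fun u => φ (w + u)))| ≤
    K * ((k : ℝ) / (p * Real.sqrt p) + Real.sqrt k / p) / a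

/-- (SMC) as (SML), from (SWC), (CRT) -/
def S_SMC : Prop := ∀ C : ℝ, 1 ≤ C → ∃ K : ℝ, 0 ≤ K ∧ ∀ (S : Finset ℕ) (k : ℕ) (L : ℕ → ℕ) (a : ℝ≥0), 1 ≤ k →
  0 < a → (k : ℝ) ≤ C * a → (∀ p ∈ S, p.Prime ∧ 1 ≤ L p ∧ (L p : ℝ) ^ 2 ≤ a) → ∀ φ : (Fin k → ℕ) → ℝ, Bd φ →
  |P a (fun w => J L S (fun u => φ (w + u))) - P a (fun w => I L S (fun u => φ (w + u)))| ≤
    K * (∑ p ∈ S, ((k : ℝ) / (p * Real.sqrt p) + Real.sqrt k / p)) / a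

/-- (TWO) the combination, from (AVG), (SMC), (BLK), (CRT), with `a = ∑ q ∈ B, 1 / q`:
`J_{S₁} J_{S₂} J_B φ ~ P J_{S₁} J_{S₂} φ ~ P J_{S₁} I_{S₂} φ`, (AVG), `P I_{S₁} I_{S₂} φ ~ I_{S₁} I_{S₂} I_B φ` -/
def S_TWO : Prop := ∀ C : ℝ, 1 ≤ C → ∃ K : ℝ, 0 ≤ K ∧ ∀ (S₁ S₂ B : Finset ℕ) (k : ℕ) (L : ℕ → ℕ) (V : ℝ),
  Disjoint S₁ S₂ → Disjoint (S₁ ∪ S₂) B → 1 ≤ k → 0 < ∑ q ∈ B, 1 / (q : ℝ) → (k : ℝ) ≤ C * ∑ q ∈ B, 1 / (q : ℝ) →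
  (∀ q ∈ B, q.Prime ∧ k ≤ q ∧ L q = 1) → (∀ p ∈ S₁, p.Prime) →
  6 * ∑ p ∈ S₁, 1 / (p : ℝ) + 4 * (∑ p ∈ S₁, 1 / (p : ℝ)) ^ 2 ≤ V →
  (∀ p ∈ S₂, p.Prime ∧ 1 ≤ L p ∧ (L p : ℝ) ^ 2 ≤ ∑ q ∈ B, 1 / (q : ℝ)) → ∀ φ : (Fin k → ℕ) → ℝ, Bd φ →
  |J L ((S₁ ∪ S₂) ∪ B) φ - I L ((S₁ ∪ S₂) ∪ B) φ| ≤ 2 - Real.exp (-(4 * k * V) / ∑ q ∈ B, 1 / (q : ℝ)) +
    6 * ∑ q ∈ B, ((k : ℝ) / q) ^ 2 +
    K * (∑ p ∈ S₂, ((k : ℝ) / (p * Real.sqrt p) + Real.sqrt k / p)) / ∑ q ∈ B, 1 / (q : ℝ)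

/-- (UPT) from (TWO) and Mertens: `S₁` the primes `≤ p₀`, `p₀ = p₀(C)` with `K C / √p₀` much smaller than
`exp (-C' (log log p₀ + c)^2)`, which is possible -/
def S_UPT : Prop := ∀ C : ℝ, 1 ≤ C → ∃ η : ℝ, 0 < η ∧ ∃ A : ℕ, ∀ y k : ℕ, A ≤ y → 1 ≤ k →
  (k : ℝ) ≤ C * Real.log (Real.log y) → ∀ φ : (Fin k → ℕ) → ℝ, Bd φ →
  |J (cap ⌊Real.log (Real.log y) ^ 3⌋₊ ⌊Real.sqrt (Real.log (Real.log y)) / 2⌋₊)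
      (prs 0 ⌊Real.log (Real.log y) ^ 3⌋₊ ∪ prs ⌊Real.log (Real.log y) ^ 3⌋₊ y) φ -
    I (cap ⌊Real.log (Real.log y) ^ 3⌋₊ ⌊Real.sqrt (Real.log (Real.log y)) / 2⌋₊)
      (prs 0 ⌊Real.log (Real.log y) ^ 3⌋₊ ∪ prs ⌊Real.log (Real.log y) ^ 3⌋₊ y) φ| ≤ 2 - η

/-- (ERR3) as (ERR2), for `k ≤ C log log y` and `N ≥ y ^ (log log y)^3`, from (K3), (K4), (K5), (K6) and Mertens -/
def S_ERR3 : Prop := ∀ C : ℝ, 1 ≤ C → ∀ ε : ℝ, 0 < ε → ∃ A : ℕ, ∀ y N k : ℕ, A ≤ y →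
  (y : ℝ) ^ (Real.log (Real.log y) ^ 3) ≤ N → 1 ≤ k →
  (k : ℝ) ≤ C * Real.log (Real.log y) → ∀ φ : (Fin k → ℕ) → ℝ, Bd φ →
  |emp y N φ - J (cap ⌊Real.log (Real.log y) ^ 3⌋₊ ⌊Real.sqrt (Real.log (Real.log y)) / 2⌋₊)
      (prs 0 ⌊Real.log (Real.log y) ^ 3⌋₊ ∪ prs ⌊Real.log (Real.log y) ^ 3⌋₊ y) φ| ≤ ε ∧
  |prd y N φ - I (cap ⌊Real.log (Real.log y) ^ 3⌋₊ ⌊Real.sqrt (Real.log (Real.log y)) / 2⌋₊)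
      (prs 0 ⌊Real.log (Real.log y) ^ 3⌋₊ ∪ prs ⌊Real.log (Real.log y) ^ 3⌋₊ y) φ| ≤ ε

end Pool.Agent.H19.OM
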