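import Mathlib

set_option autoImplicit false

/-!
# Omega truncated at `y` at `k` consecutive integers: the threshold `k ~ log log y` (project OM, MP_e0aac0_nt)

Statements of the modules.  The final theorem: the sum of Q1 for the truncated function `Om y` tends to `0` if
`k / log log y → 0` (for `N ≥ 5 ^ y`) and to `2` if `k / log log y → ∞` (for all `y ≤ 2 N`, in particular for `Ω`).
-/

namespace Pool.Agent.H19.OM

open Finset MeasureTheory ProbabilityTheory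
open scoped NNReal

/-- the exponent of `p` in `m`, capped at `L`: the number of `1 ≤ a ≤ L` with `p ^ a ∣ m` -/
def val (p L m : ℕ) : ℕ := ((Icc 1 L).filter (fun a => p ^ a ∣ m)).card

/-- functions on `ℕ ^ k` bounded by one -/
def Bd {k : ℕ} (φ : (Fin k → ℕ) → ℝ) : Prop := ∀ z, |φ z| ≤ 1

/-- the modulus -/
def Mo (L : ℕ → ℕ) (S : Finset ℕ) : ℕ := ∏ p ∈ S, p ^ L p

/-- joint mean over a period: `n` uniform modulo `Mo L S`, the vector of the capped numbers of prime factors in `S`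
of `n, n + 1, …, n + k - 1` -/
noncomputable def J (L : ℕ → ℕ) (S : Finset ℕ) {k : ℕ} (φ : (Fin k → ℕ) → ℝ) : ℝ :=
  (∑ n ∈ range (Mo L S), φ (fun i => ∑ p ∈ S, val p (L p) (n + i))) / Mo L S

/-- the same with independent coordinates -/
noncomputable def I (L : ℕ → ℕ) (S : Finset ℕ) {k : ℕ} (φ : (Fin k → ℕ) → ℝ) : ℝ :=
  (∑ n ∈ Fintype.piFinset (fun _ : Fin k => range (Mo L S)), φ (fun i => ∑ p ∈ S, val p (L p) (n i))) /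
    (Mo L S : ℝ) ^ k

/-- mean over `k` independent Poisson variables with mean `a` -/
noncomputable def P (a : ℝ≥0) {k : ℕ} (φ : (Fin k → ℕ) → ℝ) : ℝ :=
  ∫ w, φ w ∂(Measure.pi (fun _ : Fin k => poissonMeasure a))

/-- `∑ j, C(m, j) C(n, j) j! / a ^ j` -/
noncomputable def cc (a : ℝ) (m n : ℕ) : ℝ :=
  ∑ j ∈ range (m + 1), (m.choose j : ℝ) * (n.choose j) * j.factorial / a ^ j

/-- the density of the shift by `u`: `∏ i, (w i)(w i - 1)⋯(w i - u i + 1) / a ^ (u i)` -/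
noncomputable def gg (a : ℝ≥0) {k : ℕ} (u w : Fin k → ℕ) : ℝ :=
  ∏ i, ((w i).descFactorial (u i) : ℝ) / (a : ℝ) ^ (u i)

/-! ## Upper bound: the modules -/

/-- (SHI) the shift identity for Poisson variables, for bounded functions -/
def S_SHI : Prop := ∀ (a : ℝ≥0), 0 < a → ∀ (k : ℕ) (u : Fin k → ℕ) (φ : (Fin k → ℕ) → ℝ), Bd φ →
  Integrable (fun w => φ w * gg a u w) (Measure.pi (fun _ : Fin k => poissonMeasure a)) ∧
  P a (fun w => φ (w + u)) = P a (fun w => φ w * gg a u w)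

/-- (GRA) the scalar products of the densities -/
def S_GRA : Prop := ∀ (a : ℝ≥0), 0 < a → ∀ (k : ℕ) (u v : Fin k → ℕ),
  Integrable (fun w => gg a u w * gg a v w) (Measure.pi (fun _ : Fin k => poissonMeasure a)) ∧
  P a (fun w => gg a u w * gg a v w) = ∏ i, cc a (u i) (v i)

/-- (SWA) the swap with Poisson smoothing: `X` a random vector (`r` uniform in the finite set `R`), against
the vector with the same marginals and independent coordinates -/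
def S_SWA : Prop := ∀ (R : Finset ℕ), R.Nonempty → ∀ (k L : ℕ) (X : ℕ → Fin k → ℕ) (a : ℝ≥0) (B : ℝ), 0 < a →
  (∀ r ∈ R, ∀ i, X r i ≤ L) → (L : ℝ) ^ 2 ≤ a →
  (∀ r ∈ R, ∀ s ∈ R, ∑ i, (X r i : ℝ) * X s i ≤ B * a) → ∀ φ : (Fin k → ℕ) → ℝ, Bd φ →
  |P a (fun w => (∑ r ∈ R, φ (w + X r)) / R.card) -
    P a (fun w => (∑ r ∈ Fintype.piFinset (fun _ : Fin k => R), φ (w + fun i => X (r i) i)) / (R.card : ℝ) ^ k)| ≤
  Real.sqrt (18 * Real.exp (3 * B) * ((∑ r ∈ R, ∑ s ∈ R, (∑ i, (X r i : ℝ) * X s i) ^ 2) / (R.card : ℝ) ^ 2)) / a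

/-- (AR1) the scalar products of two vectors of exponents are bounded (also if a window contains `0`:
`∑ i, val (r + i) ^ 2 = ∑_{m ≤ L} (2 m - 1) #{i < k : p ^ m ∣ r + i} ≤ ∑ (2 m - 1) (k / p ^ m + 1)`) -/
def S_AR1 : Prop := ∀ p L k : ℕ, p.Prime → ∀ r s : ℕ,
  (∑ i : Fin k, (val p L (r + i) : ℝ) * val p L (s + i)) ≤ 3 * k + (L : ℝ) ^ 2

/-- (AR2) the mean square of the scalar products (`E X_i X_j ≤ 6 / p`, and `= 0` unless `p ∣ i - j`) -/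
def S_AR2 : Prop := ∀ p L k : ℕ, p.Prime →
  (∑ r ∈ range (p ^ L), ∑ s ∈ range (p ^ L), (∑ i : Fin k, (val p L (r + i) : ℝ) * val p L (s + i)) ^ 2) /
    ((p : ℝ) ^ L) ^ 2 ≤ 36 * ((k : ℝ) ^ 2 / (p : ℝ) ^ 3 + k / (p : ℝ) ^ 2)

/-- (SW) the swap at one small prime, from (SWA), (AR1), (AR2) with `B = 4` -/
def S_SW : Prop := ∃ K : ℝ, 0 ≤ K ∧ ∀ (p k : ℕ) (L : ℕ → ℕ) (a : ℝ≥0), p.Prime → 1 ≤ L p → 1 ≤ k → (k : ℝ) ≤ a →
  (L p : ℝ) ^ 2 ≤ a → ∀ φ : (Fin k → ℕ) → ℝ, Bd φ →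
  |P a (fun w => J L {p} (fun u => φ (w + u))) - P a (fun w => I L {p} (fun u => φ (w + u)))| ≤
    K * ((k : ℝ) / (p * Real.sqrt p) + Real.sqrt k / p) / a

/-- (PQ) one large prime against Poisson variables -/
def S_PQ : Prop := ∀ (q k : ℕ) (L : ℕ → ℕ), q.Prime → 1 ≤ k → k ≤ q → L q = 1 → ∀ φ : (Fin k → ℕ) → ℝ, Bd φ →
  |J L {q} φ - P (1 / (q : ℝ≥0)) φ| ≤ 3 * ((k : ℝ) / q) ^ 2 ∧
  |I L {q} φ - P (1 / (q : ℝ≥0)) φ| ≤ 3 * ((k : ℝ) / q) ^ 2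

/-- (PAD) additivity of Poisson variables -/
def S_PAD : Prop := ∀ (a b : ℝ≥0) (k : ℕ) (φ : (Fin k → ℕ) → ℝ), Bd φ →
  P a (fun w => P b (fun v => φ (w + v))) = P (a + b) φ

/-- (CRT) the Chinese remainder theorem -/
def S_CRT : Prop := ∀ (L : ℕ → ℕ) (S T : Finset ℕ), Disjoint S T → (∀ p ∈ S ∪ T, p.Prime) →
  ∀ (k : ℕ) (φ : (Fin k → ℕ) → ℝ),
  J L (S ∪ T) φ = J L S (fun u => J L T (fun v => φ (u + v))) ∧
  I L (S ∪ T) φ = I L S (fun u => I L T (fun v => φ (u + v)))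

/-- (BLK) the large primes against Poisson variables, from (PQ), (PAD), (CRT) -/
def S_BLK : Prop := ∀ (B : Finset ℕ) (k : ℕ) (L : ℕ → ℕ), 1 ≤ k → (∀ q ∈ B, q.Prime ∧ k ≤ q ∧ L q = 1) →
  ∀ φ : (Fin k → ℕ) → ℝ, Bd φ →
  |J L B φ - P (∑ q ∈ B, 1 / (q : ℝ≥0)) φ| ≤ 3 * ∑ q ∈ B, ((k : ℝ) / q) ^ 2 ∧
  |I L B φ - P (∑ q ∈ B, 1 / (q : ℝ≥0)) φ| ≤ 3 * ∑ q ∈ B, ((k : ℝ) / q) ^ 2

/-- (SML) the small primes with Poisson smoothing, from (SW), (CRT) -/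
def S_SML : Prop := ∃ K : ℝ, 0 ≤ K ∧ ∀ (S : Finset ℕ) (k : ℕ) (L : ℕ → ℕ) (a : ℝ≥0), 1 ≤ k → (k : ℝ) ≤ a →
  (∀ p ∈ S, p.Prime ∧ 1 ≤ L p ∧ (L p : ℝ) ^ 2 ≤ a) → ∀ φ : (Fin k → ℕ) → ℝ, Bd φ →
  |P a (fun w => J L S (fun u => φ (w + u))) - P a (fun w => I L S (fun u => φ (w + u)))| ≤
    K * (∑ p ∈ S, ((k : ℝ) / (p * Real.sqrt p) + Real.sqrt k / p)) / a

/-- (HYB) all the primes, from (BLK), (SML), (CRT) -/
def S_HYB : Prop := ∃ K : ℝ, 0 ≤ K ∧ ∀ (S B : Finset ℕ) (k : ℕ) (L : ℕ → ℕ), Disjoint S B → 1 ≤ k →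
  (k : ℝ) ≤ ∑ q ∈ B, 1 / (q : ℝ) → (∀ q ∈ B, q.Prime ∧ k ≤ q ∧ L q = 1) →
  (∀ p ∈ S, p.Prime ∧ 1 ≤ L p ∧ (L p : ℝ) ^ 2 ≤ ∑ q ∈ B, 1 / (q : ℝ)) → ∀ φ : (Fin k → ℕ) → ℝ, Bd φ →
  |J L (S ∪ B) φ - I L (S ∪ B) φ| ≤ 6 * ∑ q ∈ B, ((k : ℝ) / q) ^ 2 +
    K * (∑ p ∈ S, ((k : ℝ) / (p * Real.sqrt p) + Real.sqrt k / p)) / ∑ q ∈ B, 1 / (q : ℝ)

/-- the number of prime factors `p ≤ y` of `n`, with multiplicity -/
def Om (y n : ℕ) : ℕ := ∑ p ∈ n.primeFactors with p ≤ y, n.factorization p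

/-- the mean over `1 ≤ n ≤ N` of a function of `Om y n, …, Om y (n + k - 1)` -/
noncomputable def emp (y N : ℕ) {k : ℕ} (φ : (Fin k → ℕ) → ℝ) : ℝ :=
  (∑ n ∈ Icc 1 N, φ (fun i => Om y (n + i))) / N

/-- the mean for `k` independent integers -/
noncomputable def prd (y N : ℕ) {k : ℕ} (φ : (Fin k → ℕ) → ℝ) : ℝ :=
  (∑ m ∈ Fintype.piFinset (fun _ : Fin k => Icc 1 N), φ (fun i => Om y (m i))) / (N : ℝ) ^ k

/-- the primes up to `y` and their caps -/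
def prs (M y : ℕ) : Finset ℕ := (Ioc M y).filter Nat.Prime

/-- `L` for the primes `p ≤ M` and `1` for the others -/
def cap (M L p : ℕ) : ℕ := if p ≤ M then L else 1

/-- (INT) passage from the period to the integers up to `N` -/
def S_INT : Prop := ∀ (y M L N k : ℕ), 1 ≤ N → 1 ≤ L → 1 ≤ M → M ≤ y → 1 ≤ k → ∀ φ : (Fin k → ℕ) → ℝ, Bd φ →
  |emp y N φ - J (cap M L) (prs 0 M ∪ prs M y) φ| ≤
    2 * k * (2 / (2 : ℝ) ^ L + 1 / M + y / N) + 2 * Mo (cap M L) (prs 0 M ∪ prs M y) / N ∧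
  |prd y N φ - I (cap M L) (prs 0 M ∪ prs M y) φ| ≤
    k * (2 * (2 / (2 : ℝ) ^ L + 1 / M + y / N) + 2 * Mo (cap M L) (prs 0 M ∪ prs M y) / N)

/-- (MO) the size of the modulus -/
def S_MO : Prop := ∀ (y M L : ℕ), 1 ≤ M → M ≤ y → Mo (cap M L) (prs 0 M ∪ prs M y) ≤ M ^ (L * M) * 4 ^ y

/-- (UP) upper bound, from (HYB), (INT), (MO) and Mertens; `M = ⌊(log log y)^3⌋`, `L = ⌊√(log log y) / 2⌋` -/
def S_UP : Prop := ∀ ε : ℝ, 0 < ε → ∃ δ : ℝ, 0 < δ ∧ ∃ A : ℕ, ∀ y N k : ℕ, A ≤ y → 5 ^ y ≤ N → 1 ≤ k →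
  (k : ℝ) ≤ δ * Real.log (Real.log y) → ∀ φ : (Fin k → ℕ) → ℝ, Bd φ → |emp y N φ - prd y N φ| ≤ ε

/-! ## Lower bound: the modules -/

/-- (TK) Turán–Kubilius -/
def S_TK : Prop := ∃ C : ℝ, 0 < C ∧ ∀ y N : ℕ, 3 ≤ y → 1 ≤ N → ∃ μ : ℝ,
  ∑ n ∈ Icc 1 N, ((Om y n : ℝ) - μ) ^ 2 ≤ C * (1 + Real.log (Real.log y)) * N

/-- the difference of the sums over two neighbouring residue classes modulo `D` of the positions -/
def stat (D m r : ℕ) (f : ℕ → ℝ) : ℝ := ∑ j ∈ range m, (f (j * D + r % D) - f (j * D + (r + 1) % D))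

/-- (QLO) independent coordinates: the statistics are small, from (TK) and Chebyshev -/
def S_QLO : Prop := ∃ C : ℝ, 0 < C ∧ ∀ y N a m k : ℕ, 3 ≤ y → 1 ≤ N → 1 ≤ a → 1 ≤ m → m * 2 ^ a ≤ k →
  (((Fintype.piFinset (fun _ : Fin k => Icc 1 N)).filter (fun n => ∃ r < 2 ^ a, (a : ℝ) * m / 2 ≤
    stat (2 ^ a) m r (fun i => if h : i < k then (Om y (n ⟨i, h⟩) : ℝ) else 0))).card : ℝ) ≤
  C * 2 ^ a * (1 + Real.log (Real.log y)) / ((a : ℝ) ^ 2 * m) * (N : ℝ) ^ k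

/-- the first integer `≥ n` which is `0` modulo `D` -/
def t0 (D n : ℕ) : ℕ := n + (D - n % D) % D

/-- the first integer `≥ n` which is `1` modulo `D` -/
def t1 (D n : ℕ) : ℕ := n + ((D - n % D) % D + 1) % D

/-- the number of odd primes `p ≤ z` dividing `m` -/
def om (z m : ℕ) : ℕ := ((Icc 3 z).filter (fun p => p.Prime ∧ p ∣ m)).card

/-- the higher powers of the odd primes dividing `m` -/
def hp (m : ℕ) : ℕ := ∑ p ∈ m.primeFactors with p ≠ 2, (m.factorization p - 1)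

/-- (PL1) the odd primes `p ≤ z`: second moment (Chinese remainder theorem, different primes are uncorrelated) -/
def S_PL1 : Prop := ∃ C : ℝ, 0 < C ∧ ∀ N a m z : ℕ, 1 ≤ a → 1 ≤ m → (m * 2 ^ a) ^ 8 ≤ N → z ^ 8 ≤ N →
  ∑ n ∈ Icc 1 N, (∑ j ∈ range m, ((om z (t0 (2 ^ a) n + j * 2 ^ a) : ℝ) - om z (t1 (2 ^ a) n + j * 2 ^ a))) ^ 2 ≤
    C * (m * (1 + Real.log (Real.log (max z 3))) + (m : ℝ) ^ 2) * N

/-- (PL2) the higher powers: first moment -/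
def S_PL2 : Prop := ∃ C : ℝ, 0 < C ∧ ∀ N a m : ℕ, 1 ≤ a → 1 ≤ m → (m * 2 ^ a) ^ 8 ≤ N →
  ∑ n ∈ Icc 1 N, ∑ j ∈ range m, (hp (t1 (2 ^ a) n + j * 2 ^ a) : ℝ) ≤ C * m * N

/-- (PLO) consecutive integers: one of the statistics is large for almost all `n`; from (PL1), (PL2) with `z = ⌊N^(1/8)⌋`
(at most 16 primes `> z` divide an integer `≤ 2 N`; `r = (- n) mod 2 ^ a`) -/
def S_PLO : Prop := ∃ C : ℝ, 0 < C ∧ ∀ y N a m : ℕ, 3 ≤ y → 1 ≤ a → 1 ≤ m → (m * 2 ^ a) ^ 8 ≤ N →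
  (((Icc 1 N).filter (fun n => ∀ r < 2 ^ a,
    stat (2 ^ a) m r (fun i => (Om y (n + i) : ℝ)) < (a : ℝ) * m / 2)).card : ℝ) ≤
  (C / a + C * (1 + Real.log (Real.log y)) / ((a : ℝ) ^ 2 * m)) * N

/-- (LOW) lower bound, from (QLO), (PLO) -/
def S_LOW : Prop := ∀ ε : ℝ, 0 < ε → ∃ C : ℝ, 0 < C ∧ ∀ y N k : ℕ, C ≤ y → y ≤ 2 * N →
  C * Real.log (Real.log y) ≤ k → k ≤ N → ∃ A : Set (Fin k → ℕ), ∀ φ : (Fin k → ℕ) → ℝ,
  (∀ z, (z ∈ A → φ z = 1) ∧ (z ∉ A → φ z = 0)) → 1 - ε ≤ emp y N φ ∧ prd y N φ ≤ ε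

end Pool.Agent.H19.OM
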