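import Pool.Agent.H19.OM.Stm

set_option autoImplicit false

namespace Pool.Agent.H19.OM

open Finset Filter Topology

/-- the event of the lower bound -/
def evt (a m k : ℕ) : Set (Fin k → ℕ) :=
  {z | ∃ r < 2 ^ a, (a : ℝ) * m / 2 ≤ stat (2 ^ a) m r (fun i => if h : i < k then (z ⟨i, h⟩ : ℝ) else 0)}

lemma stat_congr (D m r : ℕ) (hD : 0 < D) (f g : ℕ → ℝ) (h : ∀ i < m * D, f i = g i) : stat D m r f = stat D m r g := by
  unfold stat
  refine sum_congr rfl fun j hj => ?_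
  have hj' := mem_range.1 hj
  have h0 : (j + 1) * D ≤ m * D := Nat.mul_le_mul_right D hj'
  have h1 := Nat.mod_lt r hD
  have h2 := Nat.mod_lt (r + 1) hD
  rw [h (j * D + r % D) (by nlinarith), h (j * D + (r + 1) % D) (by nlinarith)]

lemma emp_evt (y N a m k : ℕ) (hN : 1 ≤ N) (hk : m * 2 ^ a ≤ k) (φ : (Fin k → ℕ) → ℝ)
    (hφ : ∀ z, (z ∈ evt a m k → φ z = 1) ∧ (z ∉ evt a m k → φ z = 0)) :
    1 - (((Icc 1 N).filter (fun n => ∀ r < 2 ^ a,
      stat (2 ^ a) m r (fun i => (Om y (n + i) : ℝ)) < (a : ℝ) * m / 2)).card : ℝ) / N ≤ emp y N φ := by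
  have hN' : (0 : ℝ) < N := by exact_mod_cast hN
  unfold emp
  rw [sub_le_iff_le_add, ← add_div, le_div_iff₀ hN', one_mul]
  have h1 : (N : ℝ) = ∑ n ∈ Icc 1 N, (1 : ℝ) := by simp
  rw [← sum_boole, ← sum_add_distrib]
  nth_rewrite 1 [h1]
  refine sum_le_sum fun n _ => ?_
  have key : ∀ r, stat (2 ^ a) m r (fun i => if h : i < k then ((fun i : Fin k => Om y (n + i)) ⟨i, h⟩ : ℝ) else 0) =
      stat (2 ^ a) m r (fun i => (Om y (n + i) : ℝ)) := by
    intro r
    refine stat_congr _ _ _ (by positivity) _ _ fun i hi => ?_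
    have hik : i < k := by omega
    simp [hik]
  by_cases hz : (fun i : Fin k => Om y (n + i)) ∈ evt a m k
  · rw [(hφ _).1 hz]
    split_ifs <;> norm_num
  · rw [(hφ _).2 hz, if_pos]
    · norm_num
    · intro r hr
      by_contra hcon
      refine hz ⟨r, hr, ?_⟩
      rw [key r]
      exact not_lt.1 hcon

lemma prd_evt (y N a m k : ℕ) (φ : (Fin k → ℕ) → ℝ)
    (hφ : ∀ z, (z ∈ evt a m k → φ z = 1) ∧ (z ∉ evt a m k → φ z = 0)) :
    prd y N φ = (((Fintype.piFinset (fun _ : Fin k => Icc 1 N)).filter (fun n => ∃ r < 2 ^ a, (a : ℝ) * m / 2 ≤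
    stat (2 ^ a) m r (fun i => if h : i < k then (Om y (n ⟨i, h⟩) : ℝ) else 0))).card : ℝ) / (N : ℝ) ^ k := by
  unfold prd
  congr 1
  rw [← sum_boole]
  refine sum_congr rfl fun n _ => ?_
  split_ifs with h
  · exact (hφ _).1 h
  · exact (hφ _).2 h

theorem t_LOW (hQ : S_QLO) (hP : S_PLO) : S_LOW := by
  intro ε hε
  obtain ⟨C₁, hC₁, hQ⟩ := hQ
  obtain ⟨C₂, hC₂, hP⟩ := hP
  -- the number a
  obtain ⟨a, ha⟩ := exists_nat_ge (2 * C₂ / ε + 1)
  have ha1 : (1 : ℝ) ≤ a := by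
    have : 0 ≤ 2 * C₂ / ε := by positivity
    linarith
  have ha1' : 1 ≤ a := by exact_mod_cast ha1
  have haε : C₂ / a ≤ ε / 2 := by
    rw [div_le_iff₀ (by linarith)]
    have h1 : 2 * C₂ / ε ≤ a := by linarith
    rw [div_le_iff₀ hε] at h1
    linarith
  -- the constant for m
  obtain ⟨c, hc⟩ := exists_nat_ge (2 * (C₁ * 2 ^ a) * 2 / ε + 2 * C₂ * 2 / ε + 1)
  have hc1 : (1 : ℝ) ≤ c := by
    have h1 : 0 ≤ 2 * (C₁ * 2 ^ a) * 2 / ε := by positivity
    have h2 : 0 ≤ 2 * C₂ * 2 / ε := by positivity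
    linarith
  -- growth: (4 c 2^a x)^8 * 2 ≤ exp (exp x)
  have hgrow : ∀ᶠ x : ℝ in atTop, 2 * (2 * c * 2 ^ a * x) ^ 8 ≤ Real.exp x := by
    have h1 := Real.tendsto_pow_mul_exp_neg_atTop_nhds_zero 8
    have h2 : ∀ᶠ x : ℝ in atTop, x ^ 8 * Real.exp (-x) < 1 / (2 * (2 * c * 2 ^ a) ^ 8) := by
      refine h1.eventually (gt_mem_nhds (by positivity))
    filter_upwards [h2] with x hx
    rw [Real.exp_neg, ← div_eq_mul_inv, div_lt_div_iff₀ (Real.exp_pos _) (by positivity), one_mul] at hx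
    calc 2 * (2 * c * 2 ^ a * x) ^ 8 = x ^ 8 * (2 * (2 * c * 2 ^ a) ^ 8) := by ring
      _ ≤ Real.exp x := hx.le
  obtain ⟨x₀, hx₀⟩ := eventually_atTop.1 hgrow
  set X := max x₀ 1 with hX
  refine ⟨Real.exp (Real.exp X) + 2 * c * 2 ^ a + 3, by positivity, ?_⟩
  intro y N k hy hyN hk _
  set ll := Real.log (Real.log y) with hll
  have hyE : Real.exp (Real.exp X) ≤ y := by
    have : (0 : ℝ) ≤ 2 * c * 2 ^ a := by positivity
    linarith
  have hy0 : (0 : ℝ) < y := lt_of_lt_of_le (Real.exp_pos _) hyE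
  have hlog : Real.exp X ≤ Real.log y := (Real.le_log_iff_exp_le hy0).2 hyE
  have hlog0 : 0 < Real.log y := lt_of_lt_of_le (Real.exp_pos _) hlog
  have hllX : X ≤ ll := (Real.le_log_iff_exp_le hlog0).2 hlog
  have hll1 : 1 ≤ ll := le_trans (le_max_right _ _) hllX
  have hy3 : 3 ≤ y := by
    have h1 : (3 : ℝ) ≤ y := by
      have h1 : (0 : ℝ) ≤ 2 * c * 2 ^ a := by positivity
      have h2 := Real.exp_pos (Real.exp X)
      linarith
    exact_mod_cast h1
  have hN1 : 1 ≤ N := by omega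
  -- m
  set m := ⌈(c : ℝ) * ll⌉₊ with hm
  have hcll : 1 ≤ (c : ℝ) * ll := by nlinarith
  have hm_ge : (c : ℝ) * ll ≤ m := Nat.le_ceil _
  have hm_le : (m : ℝ) ≤ 2 * c * ll := by
    have := Nat.ceil_lt_add_one (show 0 ≤ (c : ℝ) * ll by linarith)
    have h2 : (m : ℝ) < (c : ℝ) * ll + 1 := this
    linarith
  have hm1 : 1 ≤ m := by
    have : (1 : ℝ) ≤ m := le_trans hcll hm_ge
    exact_mod_cast this
  have hm0 : (0 : ℝ) < m := by exact_mod_cast hm1
  have hmk : m * 2 ^ a ≤ k := by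
    have h1 : (m : ℝ) * 2 ^ a ≤ k := by
      calc (m : ℝ) * 2 ^ a ≤ 2 * c * ll * 2 ^ a := mul_le_mul_of_nonneg_right hm_le (by positivity)
        _ = (2 * c * 2 ^ a) * ll := by ring
        _ ≤ (Real.exp (Real.exp X) + 2 * c * 2 ^ a + 3) * ll := by
          refine mul_le_mul_of_nonneg_right ?_ (by linarith)
          have := Real.exp_pos (Real.exp X)
          linarith
        _ ≤ k := hk
    exact_mod_cast h1
  have hmN : (m * 2 ^ a) ^ 8 ≤ N := by
    have h1 : ((m : ℝ) * 2 ^ a) ^ 8 ≤ N := by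
      have h2 : 2 * (2 * c * 2 ^ a * ll) ^ 8 ≤ Real.exp ll := hx₀ ll (le_trans (le_max_left _ _) hllX)
      have h3 : Real.exp ll = Real.log y := Real.exp_log hlog0
      have h4 : Real.log y ≤ y := by
        have := Real.log_le_sub_one_of_pos hy0
        linarith
      have h5 : (y : ℝ) ≤ 2 * N := by exact_mod_cast hyN
      have h6 : ((m : ℝ) * 2 ^ a) ^ 8 ≤ (2 * c * 2 ^ a * ll) ^ 8 := by
        refine pow_le_pow_left₀ (by positivity) ?_ 8
        calc (m : ℝ) * 2 ^ a ≤ 2 * c * ll * 2 ^ a := mul_le_mul_of_nonneg_right hm_le (by positivity)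
          _ = _ := by ring
      linarith
    exact_mod_cast h1
  -- the two bounds
  have hN0 : (0 : ℝ) < N := by exact_mod_cast hN1
  have hratio : (1 + ll) / m ≤ 2 / c := by
    rw [div_le_div_iff₀ hm0 (by linarith)]
    nlinarith
  have hQ' := hQ y N a m k hy3 hN1 ha1' hm1 hmk
  have hP' := hP y N a m hy3 ha1' hm1 hmN
  have ha2 : (1 : ℝ) ≤ (a : ℝ) ^ 2 := by nlinarith
  refine ⟨evt a m k, fun φ hφ => ⟨?_, ?_⟩⟩
  · refine le_trans ?_ (emp_evt y N a m k hN1 hmk φ hφ)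
    have h1 : (((Icc 1 N).filter (fun n => ∀ r < 2 ^ a,
      stat (2 ^ a) m r (fun i => (Om y (n + i) : ℝ)) < (a : ℝ) * m / 2)).card : ℝ) / N ≤
        C₂ / a + C₂ * (1 + ll) / ((a : ℝ) ^ 2 * m) := by
      rw [div_le_iff₀ hN0]
      exact hP'
    have h2 : C₂ * (1 + ll) / ((a : ℝ) ^ 2 * m) ≤ C₂ * (2 / c) := by
      calc C₂ * (1 + ll) / ((a : ℝ) ^ 2 * m) = C₂ * ((1 + ll) / m) / (a : ℝ) ^ 2 := by
            field_simp
        _ ≤ C₂ * ((1 + ll) / m) / 1 := by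
            refine div_le_div_of_nonneg_left ?_ one_pos ha2
            positivity
        _ ≤ C₂ * (2 / c) := by
            rw [div_one]
            exact mul_le_mul_of_nonneg_left hratio hC₂.le
    have h3 : C₂ * (2 / c) ≤ ε / 2 := by
      rw [mul_div_assoc', div_le_iff₀ (by linarith)]
      have h4 : 2 * C₂ * 2 / ε ≤ c := by
        have : 0 ≤ 2 * (C₁ * 2 ^ a) * 2 / ε := by positivity
        linarith
      rw [div_le_iff₀ hε] at h4
      linarith
    linarith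
  · rw [prd_evt y N a m k φ hφ, div_le_iff₀ (by positivity)]
    refine le_trans hQ' ?_
    refine mul_le_mul_of_nonneg_right ?_ (by positivity)
    have h2 : C₁ * 2 ^ a * (1 + ll) / ((a : ℝ) ^ 2 * m) ≤ C₁ * 2 ^ a * (2 / c) := by
      calc C₁ * 2 ^ a * (1 + ll) / ((a : ℝ) ^ 2 * m) = C₁ * 2 ^ a * ((1 + ll) / m) / (a : ℝ) ^ 2 := by
            field_simp
        _ ≤ C₁ * 2 ^ a * ((1 + ll) / m) / 1 := by
            refine div_le_div_of_nonneg_left ?_ one_pos ha2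
            positivity
        _ ≤ C₁ * 2 ^ a * (2 / c) := by
            rw [div_one]
            exact mul_le_mul_of_nonneg_left hratio (by positivity)
    have h3 : C₁ * 2 ^ a * (2 / c) ≤ ε := by
      rw [mul_div_assoc', div_le_iff₀ (by linarith)]
      have h4 : 2 * (C₁ * 2 ^ a) * 2 / ε ≤ c := by
        have : 0 ≤ 2 * C₂ * 2 / ε := by positivity
        linarith
      rw [div_le_iff₀ hε] at h4
      have h5 : 0 ≤ C₁ * 2 ^ a := by positivity
      nlinarith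
    linarith

end Pool.Agent.H19.OM
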