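import Pool.Agent.H19.OM.Tv
import Pool.Agent.H19.OM.Low

set_option autoImplicit false

namespace Pool.Agent.H19.OM

open Finset

lemma emp_empf (y N k : ℕ) (φ : (Fin k → ℕ) → ℝ) : emp y N φ = empf (Om y) N φ := rfl

lemma prd_prdf (y N k : ℕ) (φ : (Fin k → ℕ) → ℝ) : prd y N φ = prdf (Om y) N φ := rfl

/-- the trivial bound -/
lemma disc_le_two (f : ℕ → ℕ) (k N : ℕ) (hN : 1 ≤ N) : disc f k N ≤ 2 := by
  refine disc_le f k N 2 fun φ hφ => ?_
  have hN' : (0 : ℝ) < N := by exact_mod_cast hN
  have h1 : |empf f N φ| ≤ 1 := by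
    unfold empf
    rw [abs_div, abs_of_pos hN', div_le_one hN']
    refine le_trans (abs_sum_le_sum_abs _ _) ?_
    refine le_trans (sum_le_sum fun n _ => hφ _) ?_
    simp
  have h2 : |prdf f N φ| ≤ 1 := by
    unfold prdf
    rw [abs_div, abs_of_pos (by positivity : (0 : ℝ) < (N : ℝ) ^ k), div_le_one (by positivity)]
    refine le_trans (abs_sum_le_sum_abs _ _) ?_
    refine le_trans (sum_le_sum fun n _ => hφ _) ?_
    simp
  calc |empf f N φ - prdf f N φ| ≤ |empf f N φ| + |prdf f N φ| := abs_sub _ _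
    _ ≤ 2 := by linarith

lemma up_disc (hU : S_UP) : ∀ ε : ℝ, 0 < ε → ∃ δ : ℝ, 0 < δ ∧ ∃ A : ℕ, ∀ y N k : ℕ, A ≤ y → 5 ^ y ≤ N → 1 ≤ k →
    (k : ℝ) ≤ δ * Real.log (Real.log y) → disc (Om y) k N ≤ ε := by
  intro ε hε
  obtain ⟨δ, hδ, A, h⟩ := hU ε hε
  exact ⟨δ, hδ, A, fun y N k h1 h2 h3 h4 => disc_le _ _ _ _ fun φ hφ => h y N k h1 h2 h3 h4 φ hφ⟩

lemma low_disc (hL : S_LOW) : ∀ ε : ℝ, 0 < ε → ∃ C : ℝ, 0 < C ∧ ∀ y N k : ℕ, C ≤ y → y ≤ 2 * N →
    C * Real.log (Real.log y) ≤ k → k ≤ N → 2 - ε ≤ disc (Om y) k N := by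
  classical
  intro ε hε
  obtain ⟨C, hC, h⟩ := hL (ε / 4) (by linarith)
  refine ⟨C, hC, fun y N k h1 h2 h3 h4 => ?_⟩
  obtain ⟨A, hA⟩ := h y N k h1 h2 h3 h4
  have h5 := hA (fun z => if z ∈ A then 1 else 0) (fun z => ⟨fun h => if_pos h, fun h => if_neg h⟩)
  have hy : 1 ≤ y := by
    have : (0 : ℝ) < y := lt_of_lt_of_le hC h1
    exact_mod_cast this
  have hN : 1 ≤ N := by omega
  have h6 := disc_ge (Om y) k N hN (fun z => if z ∈ A then 1 else 0) (fun z => by
    by_cases hz : z ∈ A
    · left; exact if_pos hz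
    · right; exact if_neg hz)
  rw [emp_empf, prd_prdf] at h5
  linarith [h5.1, h5.2]

/-- `Om y n = Ω n` for `n ≤ y` -/
lemma Om_eq (y n : ℕ) (h1 : 1 ≤ n) (h : n ≤ y) : Om y n = ArithmeticFunction.cardFactors n := by
  unfold Om
  rw [filter_true_of_mem, ArithmeticFunction.cardFactors_eq_sum_factorization]
  · rfl
  · intro p hp
    exact le_trans (Nat.le_of_dvd (by omega) (Nat.dvd_of_mem_primeFactors hp)) h

lemma disc_congr (f g : ℕ → ℕ) (k N : ℕ) (h : ∀ n : ℕ, 1 ≤ n → n ≤ N + k → f n = g n) :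
    disc f k N = disc g k N := by
  unfold disc term
  refine tsum_congr fun l => ?_
  have h1 : (Icc 1 N).filter (fun n => ∀ i : Fin k, f (n + i) = l i) =
      (Icc 1 N).filter (fun n => ∀ i : Fin k, g (n + i) = l i) := by
    refine filter_congr fun n hn => ?_
    rw [mem_Icc] at hn
    refine forall_congr' fun i => ?_
    have := i.2
    rw [h (n + i) (by omega) (by omega)]
  have h2 : ∀ i : Fin k, (Icc 1 N).filter (fun n => f n = l i) = (Icc 1 N).filter (fun n => g n = l i) := by
    intro i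
    refine filter_congr fun n hn => ?_
    rw [mem_Icc] at hn
    rw [h n (by omega) (by omega)]
  rw [h1]
  simp_rw [h2]

/-- the sum over the vectors of positive integers -/
noncomputable def discpos (f : ℕ → ℕ) (k N : ℕ) : ℝ := ∑' l : Fin k → ℕ, |term f k N (fun i => l i + 1)|

lemma empf_nonneg (f : ℕ → ℕ) (k N : ℕ) (φ : (Fin k → ℕ) → ℝ) (h : ∀ z, 0 ≤ φ z) : 0 ≤ empf f N φ :=
  div_nonneg (sum_nonneg fun _ _ => h _) (Nat.cast_nonneg _)

lemma prdf_nonneg (f : ℕ → ℕ) (k N : ℕ) (φ : (Fin k → ℕ) → ℝ) (h : ∀ z, 0 ≤ φ z) : 0 ≤ prdf f N φ :=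
  div_nonneg (sum_nonneg fun _ _ => h _) (by positivity)

lemma disc_discpos (f : ℕ → ℕ) (k N : ℕ) :
    disc f k N ≤ discpos f k N + empf f N (fun z : Fin k → ℕ => if ∃ i, z i = 0 then 1 else 0) +
      prdf f N (fun z : Fin k → ℕ => if ∃ i, z i = 0 then 1 else 0) := by
  obtain ⟨F, h1, h2⟩ := exists_box f k N
  rw [disc_eq f k N F h1 h2, empf_sum f k N F h1, prdf_sum f k N F h2,
    ← sum_filter_add_sum_filter_not F (fun l => ∀ i, 1 ≤ l i), add_assoc]
  refine add_le_add ?_ ?_
  · -- positive vectors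
    have hinj : Set.InjOn (fun (l : Fin k → ℕ) i => l i - 1) (F.filter (fun l => ∀ i, 1 ≤ l i)) := by
      intro l hl l' hl' heq
      rw [mem_coe, mem_filter] at hl hl'
      funext i
      have h3 := congrFun heq i
      simp only at h3
      have h4 := hl.2 i
      have h5 := hl'.2 i
      omega
    have h3 : ∑ l ∈ F.filter (fun l => ∀ i, 1 ≤ l i), |term f k N l| =
        ∑ l ∈ (F.filter (fun l => ∀ i, 1 ≤ l i)).image (fun (l : Fin k → ℕ) i => l i - 1),
          |term f k N (fun i => l i + 1)| := by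
      rw [sum_image hinj]
      refine sum_congr rfl fun l hl => ?_
      have h4 := (mem_filter.1 hl).2
      congr 2
      funext i
      have := h4 i
      show l i = l i - 1 + 1
      omega
    rw [h3]
    unfold discpos
    refine Summable.sum_le_tsum _ (fun _ _ => abs_nonneg _) ?_
    refine summable_of_hasFiniteSupport ?_
    refine Set.Finite.subset ((F.image (fun (l : Fin k → ℕ) i => l i - 1)).finite_toSet) ?_
    intro l hl
    rw [Function.mem_support] at hl
    have h4 : (fun i => l i + 1) ∈ F := by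
      by_contra hcon
      exact hl (by rw [term_zero f k N F h1 h2 _ hcon, abs_zero])
    rw [coe_image, Set.mem_image]
    refine ⟨_, h4, ?_⟩
    funext i
    simp
  · rw [← sum_add_distrib]
    refine le_trans (sum_le_sum (f := fun l => |term f k N l|)
      (g := fun l => (empf f N (fun z => if z = l then 1 else 0) * (if ∃ i, l i = 0 then 1 else 0) +
        prdf f N (fun z => if z = l then 1 else 0) * (if ∃ i, l i = 0 then 1 else 0))) ?_)
      (sum_le_sum_of_subset_of_nonneg (filter_subset _ _) ?_)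
    · intro l hl
      have h3 := (mem_filter.1 hl).2
      have h4 : ∃ i, l i = 0 := by
        rw [not_forall] at h3
        obtain ⟨i, hi⟩ := h3
        exact ⟨i, by omega⟩
      simp only [if_pos h4, mul_one]
      rw [term_eq]
      have h5 : 0 ≤ empf f N (fun z => if z = l then (1 : ℝ) else 0) :=
        empf_nonneg _ _ _ _ fun z => by split_ifs <;> norm_num
      have h6 : 0 ≤ prdf f N (fun z => if z = l then (1 : ℝ) else 0) :=
        prdf_nonneg _ _ _ _ fun z => by split_ifs <;> norm_num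
      rw [abs_le]
      constructor <;> linarith
    · intro l _ _
      have h5 : 0 ≤ empf f N (fun z => if z = l then (1 : ℝ) else 0) :=
        empf_nonneg _ _ _ _ fun z => by split_ifs <;> norm_num
      have h6 : 0 ≤ prdf f N (fun z => if z = l then (1 : ℝ) else 0) :=
        prdf_nonneg _ _ _ _ fun z => by split_ifs <;> norm_num
      split_ifs <;> linarith

lemma emp_zero (k N : ℕ) (hN : 1 ≤ N) :
    empf (fun n => ArithmeticFunction.cardFactors n) N (fun z : Fin k → ℕ => if ∃ i, z i = 0 then 1 else 0) ≤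
      1 / N := by
  unfold empf
  have hN' : (0 : ℝ) < N := by exact_mod_cast hN
  refine div_le_div_of_nonneg_right ?_ hN'.le
  rw [sum_boole]
  have : (Icc 1 N).filter (fun n => ∃ i : Fin k, ArithmeticFunction.cardFactors (n + i) = 0) ⊆ {1} := by
    intro n hn
    rw [mem_filter, mem_Icc] at hn
    obtain ⟨h1, i, hi⟩ := hn
    rw [ArithmeticFunction.cardFactors_eq_zero_iff_eq_zero_or_one] at hi
    rw [mem_singleton]
    omega
  have h2 := card_le_card this
  rw [card_singleton] at h2
  exact_mod_cast h2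

lemma prd_zero (k N : ℕ) (hN : 1 ≤ N) :
    prdf (fun n => ArithmeticFunction.cardFactors n) N (fun z : Fin k → ℕ => if ∃ i, z i = 0 then 1 else 0) ≤
      k / N := by
  have hN' : (0 : ℝ) < N := by exact_mod_cast hN
  have h1 : prdf (fun n => ArithmeticFunction.cardFactors n) N
      (fun z : Fin k → ℕ => if ∃ i, z i = 0 then 1 else 0) =
      1 - (1 - 1 / (N : ℝ)) ^ k := by
    unfold prdf
    have h2 : ∑ m ∈ Fintype.piFinset (fun _ : Fin k => Icc 1 N),
        (if ∃ i, (fun i => ArithmeticFunction.cardFactors (m i)) i = 0 then (1 : ℝ) else 0) =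
        (N : ℝ) ^ k - ((N : ℝ) - 1) ^ k := by
      have h3 : ∀ m ∈ Fintype.piFinset (fun _ : Fin k => Icc 1 N),
          (if ∃ i, (fun i => ArithmeticFunction.cardFactors (m i)) i = 0 then (1 : ℝ) else 0) =
          1 - (if m ∈ Fintype.piFinset (fun _ : Fin k => Icc 2 N) then (1 : ℝ) else 0) := by
        intro m hm
        rw [Fintype.mem_piFinset] at hm
        have h4 : (∃ i, (fun i => ArithmeticFunction.cardFactors (m i)) i = 0) ↔
            ¬ (m ∈ Fintype.piFinset (fun _ : Fin k => Icc 2 N)) := by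
          rw [Fintype.mem_piFinset, not_forall]
          refine exists_congr fun i => ?_
          have h5 := mem_Icc.1 (hm i)
          simp only [ArithmeticFunction.cardFactors_eq_zero_iff_eq_zero_or_one, mem_Icc]
          omega
        by_cases h5 : m ∈ Fintype.piFinset (fun _ : Fin k => Icc 2 N)
        · rw [if_neg (fun h => (h4.1 h) h5), if_pos h5, sub_self]
        · rw [if_pos (h4.2 h5), if_neg h5, sub_zero]
      rw [sum_congr rfl h3, sum_sub_distrib]
      have h6 : ∑ m ∈ Fintype.piFinset (fun _ : Fin k => Icc 1 N),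
          (if m ∈ Fintype.piFinset (fun _ : Fin k => Icc 2 N) then (1 : ℝ) else 0) = ((N : ℝ) - 1) ^ k := by
        rw [sum_boole, filter_mem_eq_inter, inter_eq_right.2 (Fintype.piFinset_subset _ _ fun _ =>
          Icc_subset_Icc_left (by norm_num)), Fintype.card_piFinset]
        simp only [Nat.card_Icc, prod_const, card_univ, Fintype.card_fin]
        rw [Nat.cast_pow, show N + 1 - 2 = N - 1 by omega, Nat.cast_sub hN, Nat.cast_one]
      rw [h6]
      simp
    rw [h2, sub_div, div_self (by positivity), ← div_pow, sub_div, div_self hN'.ne']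
  rw [h1]
  have h3 := one_add_mul_le_pow (a := -(1 / (N : ℝ))) (by
    have : (1 : ℝ) / N ≤ 1 := by
      rw [div_le_one hN']
      exact_mod_cast hN
    linarith) k
  have h4 : (1 + -(1 / (N : ℝ))) = 1 - 1 / (N : ℝ) := by ring
  rw [h4] at h3
  have h5 : (k : ℝ) / N = k * (1 / (N : ℝ)) := by ring
  rw [h5]
  linarith

/-- the lower bound for `Ω` and the vectors of positive integers -/
lemma low_full (hL : S_LOW) : ∀ ε : ℝ, 0 < ε → ∃ C : ℝ, 0 < C ∧ ∀ N k : ℕ, C ≤ N →
    C * Real.log (Real.log N) ≤ k → C * k ≤ N → 2 - ε ≤ discpos (fun n => ArithmeticFunction.cardFactors n) k N := by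
  intro ε hε
  obtain ⟨C, hC, h⟩ := low_disc hL (ε / 2) (by linarith)
  refine ⟨2 * C + 16 + 4 / ε, by positivity, fun N k h1 h2 h3 => ?_⟩
  have h4ε : 0 < 4 / ε := by positivity
  have hN16 : (16 : ℝ) ≤ N := by linarith
  have hN' : (0 : ℝ) < N := by linarith
  have hN : 1 ≤ N := by
    have : (1 : ℝ) ≤ N := by linarith
    exact_mod_cast this
  -- the iterated logarithm
  have hlogN : 2 ≤ Real.log N := by
    rw [Real.le_log_iff_exp_le hN']
    have := Real.exp_one_lt_d9
    have h5 : Real.exp 2 = Real.exp 1 * Real.exp 1 := by rw [← Real.exp_add]; norm_num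
    have h6 := Real.exp_pos 1
    nlinarith
  have hlog2 : Real.log (2 * N) ≤ Real.log N ^ 2 := by
    rw [Real.log_mul (by norm_num) hN'.ne']
    have := Real.log_two_lt_d9
    nlinarith
  have hll : Real.log (Real.log (2 * N)) ≤ 2 * Real.log (Real.log N) := by
    have h5 : 0 < Real.log (2 * N) := Real.log_pos (by linarith)
    calc Real.log (Real.log (2 * N)) ≤ Real.log (Real.log N ^ 2) := Real.log_le_log h5 hlog2
      _ = 2 * Real.log (Real.log N) := by rw [Real.log_pow]; norm_num
  have hll0 : 0 ≤ Real.log (Real.log N) := Real.log_nonneg (by linarith)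
  have hk1 : k ≤ N := by
    have h5 : (k : ℝ) ≤ N := by
      have h6 : (0 : ℝ) ≤ k := Nat.cast_nonneg k
      nlinarith
    exact_mod_cast h5
  have h5 := h (2 * N) N k (by push_cast; linarith) le_rfl (by
    push_cast
    calc C * Real.log (Real.log (2 * N)) ≤ C * (2 * Real.log (Real.log N)) :=
          mul_le_mul_of_nonneg_left hll hC.le
      _ = 2 * C * Real.log (Real.log N) := by ring
      _ ≤ (2 * C + 16 + 4 / ε) * Real.log (Real.log N) :=
          mul_le_mul_of_nonneg_right (by linarith) hll0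
      _ ≤ k := h2) hk1
  have h6 : disc (Om (2 * N)) k N = disc (fun n => ArithmeticFunction.cardFactors n) k N :=
    disc_congr _ _ _ _ fun n hn1 hn2 => Om_eq _ _ hn1 (by omega)
  rw [h6] at h5
  have h7 := disc_discpos (fun n => ArithmeticFunction.cardFactors n) k N
  have h8 := emp_zero k N hN
  have h9 := prd_zero k N hN
  have h10 : (1 : ℝ) / N ≤ ε / 4 := by
    rw [div_le_iff₀ hN']
    have h11 : 4 / ε ≤ N := by linarith
    rw [div_le_iff₀ hε] at h11
    linarith
  have h11 : (k : ℝ) / N ≤ ε / 4 := by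
    rw [div_le_iff₀ hN']
    have h12 : (4 / ε) * k ≤ N := by
      have h6 : (0 : ℝ) ≤ k := Nat.cast_nonneg k
      nlinarith
    rw [div_mul_eq_mul_div, div_le_iff₀ hε] at h12
    linarith
  linarith

end Pool.Agent.H19.OM
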