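import Pool.Agent.H19.OM.Stm2
import Pool.Agent.H19.OM.Fin

set_option autoImplicit false

namespace Pool.Agent.H19.OM

open Finset

theorem t_CL (hG : S_CG) (hE : S_ERR) (hR : S_RES) : S_CL := by
  intro c hc
  have hc4 : 0 < min (c / 4) 1 := lt_min (by linarith) one_pos
  obtain ⟨η, hη, A₁, hG⟩ := hG (min (c / 4) 1) hc4
  obtain ⟨A₂, hE⟩ := hE (η / 4) (by linarith)
  -- the size of y
  set X : ℝ := max (4 / c) 1 with hX
  obtain ⟨A₃, hA₃⟩ := exists_nat_ge (Real.exp (Real.exp X))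
  refine ⟨η / 2, by linarith, max A₁ (max A₂ A₃), fun y N k hy hN hk => ?_⟩
  have hy1 : A₁ ≤ y := le_trans (le_max_left _ _) hy
  have hy2 : A₂ ≤ y := le_trans (le_trans (le_max_left _ _) (le_max_right _ _)) hy
  have hy3 : A₃ ≤ y := le_trans (le_trans (le_max_right _ _) (le_max_right _ _)) hy
  have hyE : Real.exp (Real.exp X) ≤ y := le_trans hA₃ (by exact_mod_cast hy3)
  set ll := Real.log (Real.log y) with hll
  have hy0 : (0 : ℝ) < y := lt_of_lt_of_le (Real.exp_pos _) hyE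
  have hlog : Real.exp X ≤ Real.log y := (Real.le_log_iff_exp_le hy0).2 hyE
  have hlog0 : 0 < Real.log y := lt_of_lt_of_le (Real.exp_pos _) hlog
  have hllX : X ≤ ll := (Real.le_log_iff_exp_le hlog0).2 hlog
  have hll1 : 1 ≤ ll := le_trans (le_max_right _ _) hllX
  have hllc : 4 / c ≤ ll := le_trans (le_max_left _ _) hllX
  have hk4 : (4 : ℝ) ≤ k := by
    refine le_trans ?_ hk
    rw [div_le_iff₀ hc] at hllc
    linarith
  have hk4' : 4 ≤ k := by exact_mod_cast hk4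
  set m := min (k / 2) ⌈ll⌉₊ with hm
  have hmk : 2 * m ≤ k := by
    have : m ≤ k / 2 := min_le_left _ _
    omega
  have hm2 : (m : ℝ) ≤ ll + 1 := by
    have h1 : m ≤ ⌈ll⌉₊ := min_le_right _ _
    have h2 : (⌈ll⌉₊ : ℝ) < ll + 1 := Nat.ceil_lt_add_one (by linarith)
    have h3 : (m : ℝ) ≤ (⌈ll⌉₊ : ℝ) := by exact_mod_cast h1
    linarith
  have hm3 : min (c / 4) 1 * ll ≤ m := by
    rcases min_choice (k / 2) ⌈ll⌉₊ with h1 | h1
    · rw [← hm] at h1
      rw [h1]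
      have h2 : (k : ℝ) / 4 ≤ ((k / 2 : ℕ) : ℝ) := by
        have h3 : k ≤ 4 * (k / 2) := by omega
        have h4 : (k : ℝ) ≤ 4 * ((k / 2 : ℕ) : ℝ) := by exact_mod_cast h3
        linarith
      refine le_trans ?_ h2
      calc min (c / 4) 1 * ll ≤ c / 4 * ll := mul_le_mul_of_nonneg_right (min_le_left _ _) (by linarith)
        _ = c * ll / 4 := by ring
        _ ≤ k / 4 := by linarith
    · rw [← hm] at h1
      rw [h1]
      refine le_trans ?_ (Nat.le_ceil ll)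
      calc min (c / 4) 1 * ll ≤ 1 * ll := mul_le_mul_of_nonneg_right (min_le_right _ _) (by linarith)
        _ = ll := one_mul _
  have hm1 : 1 ≤ m := by
    refine le_min (by omega) ?_
    have : (0 : ℝ) < ll := by linarith
    exact Nat.ceil_pos.2 this
  have hN1 : 1 ≤ N := le_trans (Nat.one_le_pow _ _ (by norm_num)) hN
  have hbd : Bd (tst m (1 / (2 * m))) := fun z => Real.abs_cos_le_one _
  have h1 := hG y m hy1 hm3 hm2
  have h2 := hE y N (2 * m) hy2 hN (by omega) (by push_cast; linarith) (tst m (1 / (2 * m))) hbd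
  have h3 := hR y N k (2 * m) hmk (tst m (1 / (2 * m))) hN1
  refine ⟨fun z => tst m (1 / (2 * m)) (fun i => z (Fin.castLE hmk i)), fun z => Real.abs_cos_le_one _, ?_⟩
  rw [h3.1, h3.2]
  have h4 := abs_le.1 h2.1
  have h5 := abs_le.1 h2.2
  rw [abs_sub_comm]
  refine le_trans ?_ (le_abs_self _)
  linarith [h4.1, h4.2, h5.1, h5.2]

/-- a test function gives a lower bound for the sum -/
lemma disc_ge_test (f : ℕ → ℕ) (k N : ℕ) (φ : (Fin k → ℕ) → ℝ) (hφ : Bd φ) :
    |empf f N φ - prdf f N φ| ≤ disc f k N := by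
  obtain ⟨F, h1, h2⟩ := exists_box f k N
  have h3 : empf f N φ - prdf f N φ = ∑ l ∈ F, term f k N l * φ l := by
    rw [empf_sum f k N F h1, prdf_sum f k N F h2, ← sum_sub_distrib]
    refine sum_congr rfl fun l _ => ?_
    rw [← sub_mul, ← term_eq]
  rw [h3, disc_eq f k N F h1 h2]
  refine le_trans (abs_sum_le_sum_abs _ _) (sum_le_sum fun l _ => ?_)
  rw [abs_mul]
  exact mul_le_of_le_one_right (abs_nonneg _) (hφ l)

lemma low_disc_small (hL : S_CL) : ∀ c : ℝ, 0 < c → ∃ η : ℝ, 0 < η ∧ ∃ A : ℕ, ∀ y N k : ℕ, A ≤ y → 5 ^ y ≤ N →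
    c * Real.log (Real.log y) ≤ k → η ≤ disc (Om y) k N := by
  intro c hc
  obtain ⟨η, hη, A, h⟩ := hL c hc
  refine ⟨η, hη, A, fun y N k h1 h2 h3 => ?_⟩
  obtain ⟨φ, hφ, h4⟩ := h y N k h1 h2 h3
  exact le_trans h4 (disc_ge_test (Om y) k N φ hφ)

end Pool.Agent.H19.OM
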