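import Pool.Agent.H19.OM.Cl

set_option autoImplicit false

namespace Pool.Agent.H19.OM

open Finset Filter Topology

lemma discpos_le (f : ℕ → ℕ) (k N : ℕ) : discpos f k N ≤ disc f k N := by
  obtain ⟨F, h1, h2⟩ := exists_box f k N
  have hs : Summable (fun l : Fin k → ℕ => |term f k N l|) := by
    refine summable_of_hasFiniteSupport ?_
    refine Set.Finite.subset F.finite_toSet ?_
    intro l hl
    rw [Function.mem_support] at hl
    by_contra hcon
    exact hl (by rw [term_zero f k N F h1 h2 _ hcon, abs_zero])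
  unfold discpos disc
  have hinj : Function.Injective (fun (l : Fin k → ℕ) i => l i + 1) := by
    intro l l' h
    funext i
    have := congrFun h i
    simp only at this
    omega
  exact tsum_comp_le_tsum_of_inj hs (fun _ => abs_nonneg _) hinj

/-- the threshold at `k ≍ log log y` in the range `N ≥ 5 ^ y` -/
theorem seq_iff (hU : S_UP) (hL : S_CL) (y k N : ℕ → ℕ) (hy : Tendsto y atTop atTop)
    (h : ∀ᶠ n in atTop, 1 ≤ k n ∧ 5 ^ y n ≤ N n) :
    Tendsto (fun n => disc (Om (y n)) (k n) (N n)) atTop (𝓝 0) ↔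
      Tendsto (fun n => (k n : ℝ) / Real.log (Real.log (y n))) atTop (𝓝 0) := by
  have hyR : Tendsto (fun n => (y n : ℝ)) atTop atTop := tendsto_natCast_atTop_atTop.comp hy
  have hll : Tendsto (fun n => Real.log (Real.log (y n))) atTop atTop :=
    Real.tendsto_log_atTop.comp (Real.tendsto_log_atTop.comp hyR)
  constructor
  · intro h0
    rw [tendsto_order]
    constructor
    · intro a ha
      filter_upwards [hll.eventually_gt_atTop 0] with n hn
      exact lt_of_lt_of_le ha (by positivity)
    · intro a ha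
      obtain ⟨η, hη, A, hA⟩ := low_disc_small hL a ha
      filter_upwards [h, hll.eventually_gt_atTop 0, hy.eventually_ge_atTop A, h0.eventually (gt_mem_nhds hη)]
        with n hn1 hn2 hn3 hn4
      rw [div_lt_iff₀ hn2]
      by_contra hcon
      exact absurd (hA (y n) (N n) (k n) hn3 hn1.2 (not_lt.1 hcon)) (not_le.2 hn4)
  · intro h0
    rw [tendsto_order]
    constructor
    · intro a ha
      filter_upwards with n
      exact lt_of_lt_of_le ha (tsum_nonneg fun _ => abs_nonneg _)
    · intro a ha
      obtain ⟨δ, hδ, A, hA⟩ := up_disc hU (a / 2) (by linarith)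
      filter_upwards [h, hll.eventually_gt_atTop 0, hy.eventually_ge_atTop A, h0.eventually (gt_mem_nhds hδ)]
        with n hn1 hn2 hn3 hn4
      rw [div_lt_iff₀ hn2] at hn4
      have := hA (y n) (N n) (k n) hn3 hn1.2 hn1.1 hn4.le
      linarith

/-- above the threshold -/
theorem seq_two (hL : S_LOW) (y k N : ℕ → ℕ) (hy : Tendsto y atTop atTop)
    (h : ∀ᶠ n in atTop, y n ≤ 2 * N n ∧ k n ≤ N n)
    (hk : Tendsto (fun n => (k n : ℝ) / Real.log (Real.log (y n))) atTop atTop) :
    Tendsto (fun n => disc (Om (y n)) (k n) (N n)) atTop (𝓝 2) := by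
  have hyR : Tendsto (fun n => (y n : ℝ)) atTop atTop := tendsto_natCast_atTop_atTop.comp hy
  have hll : Tendsto (fun n => Real.log (Real.log (y n))) atTop atTop :=
    Real.tendsto_log_atTop.comp (Real.tendsto_log_atTop.comp hyR)
  rw [tendsto_order]
  constructor
  · intro a ha
    obtain ⟨C, hC, hA⟩ := low_disc hL ((2 - a) / 2) (by linarith)
    filter_upwards [h, hll.eventually_gt_atTop 0, hyR.eventually_ge_atTop C, hk.eventually_ge_atTop C]
      with n hn1 hn2 hn3 hn4
    rw [le_div_iff₀ hn2] at hn4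
    have := hA (y n) (N n) (k n) hn3 hn1.1 hn4 hn1.2
    linarith
  · intro a ha
    filter_upwards [h, hy.eventually_ge_atTop 1] with n hn1 hn2
    exact lt_of_le_of_lt (disc_le_two _ _ _ (by omega)) ha

/-- the full function -/
theorem seq_full (hL : S_LOW) (k : ℕ → ℕ)
    (hk : Tendsto (fun N : ℕ => (k N : ℝ) / Real.log (Real.log N)) atTop atTop)
    (hk' : Tendsto (fun N : ℕ => (k N : ℝ) / N) atTop (𝓝 0)) :
    Tendsto (fun N : ℕ => discpos (fun n => ArithmeticFunction.cardFactors n) (k N) N) atTop (𝓝 2) := by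
  have hyR : Tendsto (fun n : ℕ => (n : ℝ)) atTop atTop := tendsto_natCast_atTop_atTop
  have hll : Tendsto (fun n : ℕ => Real.log (Real.log n)) atTop atTop :=
    Real.tendsto_log_atTop.comp (Real.tendsto_log_atTop.comp hyR)
  rw [tendsto_order]
  constructor
  · intro a ha
    obtain ⟨C, hC, hA⟩ := low_full hL ((2 - a) / 2) (by linarith)
    filter_upwards [hll.eventually_gt_atTop 0, hyR.eventually_ge_atTop C, hyR.eventually_gt_atTop 0,
      hk.eventually_ge_atTop C, hk'.eventually (gt_mem_nhds (show 0 < 1 / C by positivity))] with N h1 h2 h3 h4 h5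
    rw [le_div_iff₀ h1] at h4
    rw [div_lt_iff₀ h3, one_div, inv_mul_eq_div, lt_div_iff₀ hC] at h5
    have := hA N (k N) h2 h4 (by linarith)
    linarith
  · intro a ha
    filter_upwards [eventually_ge_atTop 1] with N hN
    exact lt_of_le_of_lt (le_trans (discpos_le _ _ _) (disc_le_two _ _ _ hN)) ha

end Pool.Agent.H19.OM
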