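import Pool.Agent.H19.OM.Stm3
import Pool.Agent.H19.OM.Seq

set_option autoImplicit false

namespace Pool.Agent.H19.OM

open Finset Filter Topology

/-- the condition on `N` -/
def cond (A₀ y N : ℕ) : Prop := (y : ℝ) ^ (A₀ * Real.log (Real.log y) ^ 2) ≤ N

/-- (ERR2) for given `A₀` -/
def ErrAt (A₀ : ℕ) : Prop := ∀ ε : ℝ, 0 < ε → ∃ A : ℕ, ∀ y N k : ℕ, A ≤ y → cond A₀ y N → 1 ≤ k →
  (k : ℝ) ≤ 2 * Real.log (Real.log y) + 2 → ∀ φ : (Fin k → ℕ) → ℝ, Bd φ →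
  |emp y N φ - J (cap ⌊Real.log (Real.log y) ^ 3⌋₊ ⌊Real.sqrt (Real.log (Real.log y)) / 2⌋₊)
      (prs 0 ⌊Real.log (Real.log y) ^ 3⌋₊ ∪ prs ⌊Real.log (Real.log y) ^ 3⌋₊ y) φ| ≤ ε ∧
  |prd y N φ - I (cap ⌊Real.log (Real.log y) ^ 3⌋₊ ⌊Real.sqrt (Real.log (Real.log y)) / 2⌋₊)
      (prs 0 ⌊Real.log (Real.log y) ^ 3⌋₊ ∪ prs ⌊Real.log (Real.log y) ^ 3⌋₊ y) φ| ≤ ε

lemma errAt (h : S_ERR2) : ∃ A₀, ErrAt A₀ := h

lemma cond_pos {A₀ y N : ℕ} (hy : 1 ≤ y) (h : cond A₀ y N) : 1 ≤ N := by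
  have h1 : (0 : ℝ) < (y : ℝ) ^ (A₀ * Real.log (Real.log y) ^ 2) := Real.rpow_pos_of_pos (by positivity) _
  have h2 : (0 : ℝ) < N := lt_of_lt_of_le h1 h
  exact_mod_cast h2

/-- upper bound -/
theorem up2 {A₀ : ℕ} (hE : ErrAt A₀) (hU : S_UPJ) : ∀ ε : ℝ, 0 < ε → ∃ δ : ℝ, 0 < δ ∧ ∃ A : ℕ, ∀ y N k : ℕ, A ≤ y →
    cond A₀ y N → 1 ≤ k → (k : ℝ) ≤ δ * Real.log (Real.log y) → disc (Om y) k N ≤ ε := by
  intro ε hε
  obtain ⟨δ, hδ, A₁, hU⟩ := hU (ε / 3) (by linarith)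
  obtain ⟨A₂, hE⟩ := hE (ε / 3) (by linarith)
  obtain ⟨A₃, hA₃⟩ := exists_nat_ge (Real.exp (Real.exp 1))
  refine ⟨min δ 1, lt_min hδ one_pos, max A₁ (max A₂ A₃), fun y N k hy hN hk hkd => ?_⟩
  have hy1 : A₁ ≤ y := le_trans (le_max_left _ _) hy
  have hy2 : A₂ ≤ y := le_trans (le_trans (le_max_left _ _) (le_max_right _ _)) hy
  have hy3 : A₃ ≤ y := le_trans (le_trans (le_max_right _ _) (le_max_right _ _)) hy
  have hyE : Real.exp (Real.exp 1) ≤ y := le_trans hA₃ (by exact_mod_cast hy3)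
  set ll := Real.log (Real.log y) with hll
  have hy0 : (0 : ℝ) < y := lt_of_lt_of_le (Real.exp_pos _) hyE
  have hlog : Real.exp 1 ≤ Real.log y := (Real.le_log_iff_exp_le hy0).2 hyE
  have hlog0 : 0 < Real.log y := lt_of_lt_of_le (Real.exp_pos _) hlog
  have hll1 : 1 ≤ ll := (Real.le_log_iff_exp_le hlog0).2 hlog
  have hk1 : (k : ℝ) ≤ δ * ll := le_trans hkd (mul_le_mul_of_nonneg_right (min_le_left _ _) (by linarith))
  have hk2 : (k : ℝ) ≤ 2 * ll + 2 := by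
    have : (k : ℝ) ≤ 1 * ll := le_trans hkd (mul_le_mul_of_nonneg_right (min_le_right _ _) (by linarith))
    linarith
  refine disc_le _ _ _ _ fun φ hφ => ?_
  have h1 := hU y k hy1 hk hk1 φ hφ
  have h2 := hE y N k hy2 hN hk hk2 φ hφ
  rw [← emp_empf, ← prd_prdf]
  have h3 := abs_le.1 h1
  have h4 := abs_le.1 h2.1
  have h5 := abs_le.1 h2.2
  rw [abs_le]
  constructor <;> linarith [h3.1, h3.2, h4.1, h4.2, h5.1, h5.2]

/-- lower bound -/
theorem cl2 {A₀ : ℕ} (hE : ErrAt A₀) (hG : S_CG) (hR : S_RES) : ∀ c : ℝ, 0 < c → ∃ η : ℝ, 0 < η ∧ ∃ A : ℕ,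
    ∀ y N k : ℕ, A ≤ y → cond A₀ y N → c * Real.log (Real.log y) ≤ k → η ≤ disc (Om y) k N := by
  intro c hc
  have hc4 : 0 < min (c / 4) 1 := lt_min (by linarith) one_pos
  obtain ⟨η, hη, A₁, hG⟩ := hG (min (c / 4) 1) hc4
  obtain ⟨A₂, hE⟩ := hE (η / 4) (by linarith)
  -- the size of y
  set X : ℝ := max (4 / c) 1 with hX
  obtain ⟨A₃, hA₃⟩ := exists_nat_ge (Real.exp (Real.exp X))
  refine ⟨η / 2, by linarith, max A₁ (max A₂ A₃), fun y N k hy hN hk => ?_⟩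
  have hy1 : A₁ ≤ y := le_trans (le_max_left _ _) hy
  have hy2 : A₂ ≤ y := le_trans (le_trans (le_max_left _ _) (le_max_right _ _)) hy
  have hy3 : A₃ ≤ y := le_trans (le_trans (le_max_right _ _) (le_max_right _ _)) hy
  have hyE : Real.exp (Real.exp X) ≤ y := le_trans hA₃ (by exact_mod_cast hy3)
  set ll := Real.log (Real.log y) with hll
  have hy0 : (0 : ℝ) < y := lt_of_lt_of_le (Real.exp_pos _) hyE
  have hlog : Real.exp X ≤ Real.log y := (Real.le_log_iff_exp_le hy0).2 hyE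
  have hlog0 : 0 < Real.log y := lt_of_lt_of_le (Real.exp_pos _) hlog
  have hllX : X ≤ ll := (Real.le_log_iff_exp_le hlog0).2 hlog
  have hll1 : 1 ≤ ll := le_trans (le_max_right _ _) hllX
  have hllc : 4 / c ≤ ll := le_trans (le_max_left _ _) hllX
  have hk4 : (4 : ℝ) ≤ k := by
    refine le_trans ?_ hk
    rw [div_le_iff₀ hc] at hllc
    linarith
  have hk4' : 4 ≤ k := by exact_mod_cast hk4
  set m := min (k / 2) ⌈ll⌉₊ with hm
  have hmk : 2 * m ≤ k := by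
    have : m ≤ k / 2 := min_le_left _ _
    omega
  have hm2 : (m : ℝ) ≤ ll + 1 := by
    have h1 : m ≤ ⌈ll⌉₊ := min_le_right _ _
    have h2 : (⌈ll⌉₊ : ℝ) < ll + 1 := Nat.ceil_lt_add_one (by linarith)
    have h3 : (m : ℝ) ≤ (⌈ll⌉₊ : ℝ) := by exact_mod_cast h1
    linarith
  have hm3 : min (c / 4) 1 * ll ≤ m := by
    rcases min_choice (k / 2) ⌈ll⌉₊ with h1 | h1
    · rw [← hm] at h1
      rw [h1]
      have h2 : (k : ℝ) / 4 ≤ ((k / 2 : ℕ) : ℝ) := by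
        have h3 : k ≤ 4 * (k / 2) := by omega
        have h4 : (k : ℝ) ≤ 4 * ((k / 2 : ℕ) : ℝ) := by exact_mod_cast h3
        linarith
      refine le_trans ?_ h2
      calc min (c / 4) 1 * ll ≤ c / 4 * ll := mul_le_mul_of_nonneg_right (min_le_left _ _) (by linarith)
        _ = c * ll / 4 := by ring
        _ ≤ k / 4 := by linarith
    · rw [← hm] at h1
      rw [h1]
      refine le_trans ?_ (Nat.le_ceil ll)
      calc min (c / 4) 1 * ll ≤ 1 * ll := mul_le_mul_of_nonneg_right (min_le_right _ _) (by linarith)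
        _ = ll := one_mul _
  have hm1 : 1 ≤ m := by
    refine le_min (by omega) ?_
    have : (0 : ℝ) < ll := by linarith
    exact Nat.ceil_pos.2 this
  have hyN : 1 ≤ y := by exact_mod_cast hy0
  have hN1 : 1 ≤ N := cond_pos hyN hN
  have hbd : Bd (tst m (1 / (2 * m))) := fun z => Real.abs_cos_le_one _
  have h1 := hG y m hy1 hm3 hm2
  have h2 := hE y N (2 * m) hy2 hN (by omega) (by push_cast; linarith) (tst m (1 / (2 * m))) hbd
  have h3 := hR y N k (2 * m) hmk (tst m (1 / (2 * m))) hN1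
  have h6 := disc_ge_test (Om y) k N (fun z => tst m (1 / (2 * m)) (fun i => z (Fin.castLE hmk i)))
    (fun z => Real.abs_cos_le_one _)
  refine le_trans ?_ h6
  rw [← emp_empf, ← prd_prdf, h3.1, h3.2]
  have h4 := abs_le.1 h2.1
  have h5 := abs_le.1 h2.2
  rw [abs_sub_comm]
  refine le_trans ?_ (le_abs_self _)
  linarith [h4.1, h4.2, h5.1, h5.2]

/-- the threshold at `k ≍ log log y` in the range `N ≥ y ^ (A₀ (log log y)^2)` -/
theorem iff2 {A₀ : ℕ} (hE : ErrAt A₀) (hU : S_UPJ) (hG : S_CG) (hR : S_RES) (y k N : ℕ → ℕ)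
    (hy : Tendsto y atTop atTop) (h : ∀ᶠ n in atTop, 1 ≤ k n ∧ cond A₀ (y n) (N n)) :
    Tendsto (fun n => disc (Om (y n)) (k n) (N n)) atTop (𝓝 0) ↔
      Tendsto (fun n => (k n : ℝ) / Real.log (Real.log (y n))) atTop (𝓝 0) := by
  have hyR : Tendsto (fun n => (y n : ℝ)) atTop atTop := tendsto_natCast_atTop_atTop.comp hy
  have hll : Tendsto (fun n => Real.log (Real.log (y n))) atTop atTop :=
    Real.tendsto_log_atTop.comp (Real.tendsto_log_atTop.comp hyR)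
  constructor
  · intro h0
    rw [tendsto_order]
    constructor
    · intro a ha
      filter_upwards [hll.eventually_gt_atTop 0] with n hn
      exact lt_of_lt_of_le ha (by positivity)
    · intro a ha
      obtain ⟨η, hη, A, hA⟩ := cl2 hE hG hR a ha
      filter_upwards [h, hll.eventually_gt_atTop 0, hy.eventually_ge_atTop A, h0.eventually (gt_mem_nhds hη)]
        with n hn1 hn2 hn3 hn4
      rw [div_lt_iff₀ hn2]
      by_contra hcon
      exact absurd (hA (y n) (N n) (k n) hn3 hn1.2 (not_lt.1 hcon)) (not_le.2 hn4)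
  · intro h0
    rw [tendsto_order]
    constructor
    · intro a ha
      filter_upwards with n
      exact lt_of_lt_of_le ha (tsum_nonneg fun _ => abs_nonneg _)
    · intro a ha
      obtain ⟨δ, hδ, A, hA⟩ := up2 hE hU (a / 2) (by linarith)
      filter_upwards [h, hll.eventually_gt_atTop 0, hy.eventually_ge_atTop A, h0.eventually (gt_mem_nhds hδ)]
        with n hn1 hn2 hn3 hn4
      rw [div_lt_iff₀ hn2] at hn4
      have := hA (y n) (N n) (k n) hn3 hn1.2 hn1.1 hn4.le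
      linarith

end Pool.Agent.H19.OM
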