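import Pool.Agent.H19.OM.Stm

set_option autoImplicit false

/-!
# Project OM, second part: if `k ≥ c log log y` the sum of Q1 does not tend to zero (truncated function, `N ≥ 5 ^ y`)

The test function is `cos (θ * stat)`, `stat = ∑_{j < m} (l_{2j} - l_{2j+1})`, `θ = 1 / (2 m)`, `m ≍ log log y`.  For
consecutive integers the prime 2 contributes `± 2 m + O(L)` to `stat`, so the factor `|cos (2 m θ)| + o(1) = cos 1 + o(1)`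
to the characteristic function; the other primes contribute as for independent coordinates, up to `1 + o(1)`.
-/

namespace Pool.Agent.H19.OM

open Finset MeasureTheory ProbabilityTheory
open scoped NNReal

/-- characteristic function of the statistic for consecutive integers, `n` uniform modulo `Mo L S` -/
noncomputable def charJ (L : ℕ → ℕ) (S : Finset ℕ) (m : ℕ) (θ : ℝ) : ℂ :=
  (∑ n ∈ range (Mo L S), Complex.exp
    (((θ * stat 2 m 0 (fun i => ((∑ p ∈ S, val p (L p) (n + i) : ℕ) : ℝ)) : ℝ) : ℂ) * Complex.I)) / Mo L S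

/-- characteristic function of one coordinate -/
noncomputable def psi (p L : ℕ) (θ : ℝ) : ℂ :=
  (∑ r ∈ range (p ^ L), Complex.exp (((θ * val p L r : ℝ) : ℂ) * Complex.I)) / (p : ℂ) ^ L

/-- the test function on vectors with `2 m` coordinates -/
noncomputable def tst (m : ℕ) (θ : ℝ) (z : Fin (2 * m) → ℕ) : ℝ :=
  Real.cos (θ * stat 2 m 0 (fun i => if h : i < 2 * m then (z ⟨i, h⟩ : ℝ) else 0))

/-- (CA) Chinese remainder theorem for the characteristic function -/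
def S_CA : Prop := ∀ (L : ℕ → ℕ) (S : Finset ℕ) (m : ℕ) (θ : ℝ), (∀ p ∈ S, p.Prime) →
  charJ L S m θ = ∏ p ∈ S, charJ L {p} m θ

/-- (CI) the means of the test function: real part of `charJ`, and the product over the primes and the coordinates -/
def S_CI : Prop := ∀ (L : ℕ → ℕ) (S : Finset ℕ) (m : ℕ) (θ : ℝ), (∀ p ∈ S, p.Prime) →
  J L S (tst m θ) = (charJ L S m θ).re ∧ I L S (tst m θ) = ∏ p ∈ S, ‖psi p (L p) θ‖ ^ (2 * m)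

/-- (C1) the prime 2 -/
def S_C1 : Prop := ∀ (L : ℕ → ℕ) (m : ℕ) (θ : ℝ), 1 ≤ L 2 → 1 ≤ m →
  ‖charJ L {2} m θ‖ ≤ |Real.cos (2 * m * θ)| + |θ| * (L 2 + 2 * m / 2 ^ (L 2))

/-- (C2) the odd primes: the differences of the numbers of multiples of `p ^ a` at even and odd positions are `0, ±1` and
their mean modulus is at most `2 m / p ^ a`; both means of `stat` are zero and `|e^{ix} - 1 - ix| ≤ x² / 2` -/
def S_C2 : Prop := ∃ C : ℝ, 0 < C ∧ ∀ (L : ℕ → ℕ) (p m : ℕ) (θ : ℝ), p.Prime → p ≠ 2 → 1 ≤ L p → 1 ≤ m →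
  ‖charJ L {p} m θ - ((‖psi p (L p) θ‖ ^ (2 * m) : ℝ) : ℂ)‖ ≤
    C * θ ^ 2 * ((1 + Real.log m) ^ 2 * min 1 ((m : ℝ) / p) + m / p)

/-- (CB) the large primes, `L p = 1`: `charJ = 1 - (2 m / p) (1 - cos θ)`,
`‖psi‖ ^ 2 = 1 - (2 / p) (1 - 1 / p) (1 - cos θ)` -/
def S_CB : Prop := ∃ C : ℝ, 0 < C ∧ ∀ (L : ℕ → ℕ) (p m : ℕ) (θ : ℝ), p.Prime → 2 * m < p → L p = 1 → 1 ≤ m →
  ‖charJ L {p} m θ - ((‖psi p (L p) θ‖ ^ (2 * m) : ℝ) : ℂ)‖ ≤ C * ((m : ℝ) / p) ^ 2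

/-- (C3) the modulus of `psi` -/
def S_C3 : Prop := ∀ (p L m : ℕ) (θ : ℝ), p.Prime → 1 ≤ L → 3 * θ ^ 2 ≤ p →
  ‖psi p L θ‖ ≤ 1 ∧ 1 - 6 * m * θ ^ 2 / p ≤ ‖psi p L θ‖ ^ (2 * m)

/-- (CG) the difference of the two means over a period, from (CA), (CI), (C1), (C2), (CB), (C3) and Mertens, with
`M = ⌊(log log y)^3⌋`, `L = ⌊√(log log y) / 2⌋` and `θ = 1 / (2 m)` -/
def S_CG : Prop := ∀ c : ℝ, 0 < c → ∃ η : ℝ, 0 < η ∧ ∃ A : ℕ, ∀ y m : ℕ, A ≤ y →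
  c * Real.log (Real.log y) ≤ m → (m : ℝ) ≤ Real.log (Real.log y) + 1 →
  η ≤ I (cap ⌊Real.log (Real.log y) ^ 3⌋₊ ⌊Real.sqrt (Real.log (Real.log y)) / 2⌋₊)
      (prs 0 ⌊Real.log (Real.log y) ^ 3⌋₊ ∪ prs ⌊Real.log (Real.log y) ^ 3⌋₊ y) (tst m (1 / (2 * m))) -
    J (cap ⌊Real.log (Real.log y) ^ 3⌋₊ ⌊Real.sqrt (Real.log (Real.log y)) / 2⌋₊)
      (prs 0 ⌊Real.log (Real.log y) ^ 3⌋₊ ∪ prs ⌊Real.log (Real.log y) ^ 3⌋₊ y) (tst m (1 / (2 * m)))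

/-- (ERR) the errors of (INT) tend to zero -/
def S_ERR : Prop := ∀ ε : ℝ, 0 < ε → ∃ A : ℕ, ∀ y N k : ℕ, A ≤ y → 5 ^ y ≤ N → 1 ≤ k →
  (k : ℝ) ≤ 2 * Real.log (Real.log y) + 2 → ∀ φ : (Fin k → ℕ) → ℝ, Bd φ →
  |emp y N φ - J (cap ⌊Real.log (Real.log y) ^ 3⌋₊ ⌊Real.sqrt (Real.log (Real.log y)) / 2⌋₊)
      (prs 0 ⌊Real.log (Real.log y) ^ 3⌋₊ ∪ prs ⌊Real.log (Real.log y) ^ 3⌋₊ y) φ| ≤ ε ∧
  |prd y N φ - I (cap ⌊Real.log (Real.log y) ^ 3⌋₊ ⌊Real.sqrt (Real.log (Real.log y)) / 2⌋₊)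
      (prs 0 ⌊Real.log (Real.log y) ^ 3⌋₊ ∪ prs ⌊Real.log (Real.log y) ^ 3⌋₊ y) φ| ≤ ε

/-- (RES) functions of the first `k'` coordinates -/
def S_RES : Prop := ∀ (y N k k' : ℕ) (h : k' ≤ k) (φ : (Fin k' → ℕ) → ℝ), 1 ≤ N →
  emp y N (fun z : Fin k → ℕ => φ (fun i => z (Fin.castLE h i))) = emp y N φ ∧
  prd y N (fun z : Fin k → ℕ => φ (fun i => z (Fin.castLE h i))) = prd y N φ

/-- (CL) the conclusion, from (CG), (ERR), (RES) -/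
def S_CL : Prop := ∀ c : ℝ, 0 < c → ∃ η : ℝ, 0 < η ∧ ∃ A : ℕ, ∀ y N k : ℕ, A ≤ y → 5 ^ y ≤ N →
  c * Real.log (Real.log y) ≤ k → ∃ φ : (Fin k → ℕ) → ℝ, Bd φ ∧ η ≤ |emp y N φ - prd y N φ|

end Pool.Agent.H19.OM
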