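import Pool.Agent.H19.OM.Stm2

set_option autoImplicit false

/-!
# Project OM, third part: the range `N ≥ y ^ (A (log log y)^2)` in place of `N ≥ 5 ^ y`

The vector `φ(vec n)` is a function of the set `E(n)` of the triples `(i, p, a)` with `p ^ a ∣ n + i`.  Expand it in the
indicators `1[T ⊆ E(n)]` (Moebius inversion over the subsets), truncate at `|T| ≤ R`, `R ≍ (log log y)^2`: each indicator
has a period `≤ y ^ |T|`, and the error of the truncation is controlled by the exponential moment of `|E(n)|` over a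
period.
-/

namespace Pool.Agent.H19.OM

open Finset MeasureTheory ProbabilityTheory
open scoped NNReal

/-- (K1) truncated Moebius inversion over the subsets of a finite set; `c E = ∑_{E' ⊆ E} (-1)^(|E| - |E'|) F E'`, and
`∑_{j ≤ R} 2^j C(t, j) ≤ 3^R C(t, R)` for `t ≥ R` -/
def S_K1 : Prop := ∀ (F : Finset (ℕ × ℕ × ℕ) → ℝ) (R : ℕ), (∀ E, |F E| ≤ 1) →
  ∃ c : Finset (ℕ × ℕ × ℕ) → ℝ, (∀ E, |c E| ≤ 2 ^ E.card) ∧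
    ∀ E : Finset (ℕ × ℕ × ℕ), |F E - ∑ T ∈ E.powerset with T.card ≤ R, c T| ≤
      if E.card ≤ R then 0 else 2 * 3 ^ R * (E.card.choose R : ℝ)

/-- (K2) a periodic indicator function; the period is the least common multiple of the `p ^ a` -/
def S_K2 : Prop := ∀ (T : Finset (ℕ × ℕ × ℕ)) (Q N : ℕ), 1 ≤ N → 1 ≤ Q → (∀ x ∈ T, 1 ≤ x.2.1 ∧ x.2.1 ^ x.2.2 ∣ Q) →
  |(((Icc 1 N).filter (fun n => ∀ x ∈ T, x.2.1 ^ x.2.2 ∣ n + x.1)).card : ℝ) / N -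
    (((range Q).filter (fun n => ∀ x ∈ T, x.2.1 ^ x.2.2 ∣ n + x.1)).card : ℝ) / Q| ≤
  2 * (∏ x ∈ T, (x.2.1 : ℝ) ^ x.2.2) / N

/-- (K3) the exponential moment over a period: the primes `p ≤ max k 50` contribute at most `k + L` to the exponent,
the others a factor `1 + k ∑_a (25 / p) ^ a ≤ exp (50 k / p)` (at most one `i < k` with `p ∣ n + i`); (CRT) -/
def S_K3 : Prop := ∀ (S : Finset ℕ) (Lf : ℕ → ℕ) (k L : ℕ), (∀ p ∈ S, p.Prime ∧ 1 ≤ Lf p ∧ (p ≤ k ∨ p ≤ 50 → Lf p ≤ L)) →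
  (∑ n ∈ range (Mo Lf S), (25 : ℝ) ^ (∑ i : Fin k, ∑ p ∈ S, val p (Lf p) (n + i))) / Mo Lf S ≤
    (25 : ℝ) ^ ((k + 50) * (k + L)) * Real.exp (50 * k * ∑ p ∈ S, 1 / (p : ℝ))

/-- the mean over `1 ≤ n ≤ N` with caps -/
noncomputable def empc (L : ℕ → ℕ) (S : Finset ℕ) (N : ℕ) {k : ℕ} (φ : (Fin k → ℕ) → ℝ) : ℝ :=
  (∑ n ∈ Icc 1 N, φ (fun i => ∑ p ∈ S, val p (L p) (n + i))) / N

/-- (K4) from (K1), (K2): `C(t, R) ≤ 25 ^ t / 24 ^ R`, `∑_{j ≤ R} C(u, j) x ^ j ≤ (1 + u x) ^ R` -/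
def S_K4 : Prop := ∀ (S : Finset ℕ) (Lf : ℕ → ℕ) (k R W y N : ℕ), 1 ≤ N → 1 ≤ y →
  (∀ p ∈ S, p.Prime ∧ p ^ Lf p ≤ y) → k * ∑ p ∈ S, Lf p ≤ W → ∀ φ : (Fin k → ℕ) → ℝ, Bd φ →
  |empc Lf S N φ - J Lf S φ| ≤
    4 * ((∑ n ∈ range (Mo Lf S), (25 : ℝ) ^ (∑ i : Fin k, ∑ p ∈ S, val p (Lf p) (n + i))) / Mo Lf S) / 8 ^ R +
      6 * (1 + 3 * (W : ℝ) * y) ^ R / N

/-- (K5) the caps -/
def S_K5 : Prop := ∀ (y M L N k : ℕ), 1 ≤ N → 1 ≤ L → 1 ≤ M → M ≤ y → ∀ φ : (Fin k → ℕ) → ℝ, Bd φ →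
  |emp y N φ - empc (cap M L) (prs 0 M ∪ prs M y) N φ| ≤ 2 * k * (2 / (2 : ℝ) ^ L + 1 / M + y / N)

/-- (K6) independent coordinates from one coordinate -/
def S_K6 : Prop := ∀ (y N : ℕ) (L : ℕ → ℕ) (S : Finset ℕ) (ε : ℝ), 1 ≤ N → (∀ p ∈ S, p.Prime) →
  (∀ ψ : (Fin 1 → ℕ) → ℝ, Bd ψ → |emp y N ψ - J L S ψ| ≤ ε) → ∀ (k : ℕ) (φ : (Fin k → ℕ) → ℝ), Bd φ →
  |prd y N φ - I L S φ| ≤ k * ε

/-- (ERR2) the errors tend to zero if `N ≥ y ^ (A₀ (log log y)^2)`, from (K3), (K4), (K5), (K6) and Mertens -/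
def S_ERR2 : Prop := ∃ A₀ : ℕ, ∀ ε : ℝ, 0 < ε → ∃ A : ℕ, ∀ y N k : ℕ, A ≤ y →
  (y : ℝ) ^ (A₀ * Real.log (Real.log y) ^ 2) ≤ N → 1 ≤ k →
  (k : ℝ) ≤ 2 * Real.log (Real.log y) + 2 → ∀ φ : (Fin k → ℕ) → ℝ, Bd φ →
  |emp y N φ - J (cap ⌊Real.log (Real.log y) ^ 3⌋₊ ⌊Real.sqrt (Real.log (Real.log y)) / 2⌋₊)
      (prs 0 ⌊Real.log (Real.log y) ^ 3⌋₊ ∪ prs ⌊Real.log (Real.log y) ^ 3⌋₊ y) φ| ≤ ε ∧
  |prd y N φ - I (cap ⌊Real.log (Real.log y) ^ 3⌋₊ ⌊Real.sqrt (Real.log (Real.log y)) / 2⌋₊)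
      (prs 0 ⌊Real.log (Real.log y) ^ 3⌋₊ ∪ prs ⌊Real.log (Real.log y) ^ 3⌋₊ y) φ| ≤ ε

/-- (UPJ) the upper bound over a period, from (HYB) and Mertens (the part of (UP) which does not involve `N`) -/
def S_UPJ : Prop := ∀ ε : ℝ, 0 < ε → ∃ δ : ℝ, 0 < δ ∧ ∃ A : ℕ, ∀ y k : ℕ, A ≤ y → 1 ≤ k →
  (k : ℝ) ≤ δ * Real.log (Real.log y) → ∀ φ : (Fin k → ℕ) → ℝ, Bd φ →
  |J (cap ⌊Real.log (Real.log y) ^ 3⌋₊ ⌊Real.sqrt (Real.log (Real.log y)) / 2⌋₊)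
      (prs 0 ⌊Real.log (Real.log y) ^ 3⌋₊ ∪ prs ⌊Real.log (Real.log y) ^ 3⌋₊ y) φ -
    I (cap ⌊Real.log (Real.log y) ^ 3⌋₊ ⌊Real.sqrt (Real.log (Real.log y)) / 2⌋₊)
      (prs 0 ⌊Real.log (Real.log y) ^ 3⌋₊ ∪ prs ⌊Real.log (Real.log y) ^ 3⌋₊ y) φ| ≤ ε

end Pool.Agent.H19.OM
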