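import Pool.Agent.H19.OM.Stm

set_option autoImplicit false

namespace Pool.Agent.H19.OM

open Finset

/-- mean over consecutive integers -/
noncomputable def empf (f : ℕ → ℕ) (N : ℕ) {k : ℕ} (φ : (Fin k → ℕ) → ℝ) : ℝ :=
  (∑ n ∈ Icc 1 N, φ (fun i => f (n + i))) / N

/-- mean over independent integers -/
noncomputable def prdf (f : ℕ → ℕ) (N : ℕ) {k : ℕ} (φ : (Fin k → ℕ) → ℝ) : ℝ :=
  (∑ m ∈ Fintype.piFinset (fun _ : Fin k => Icc 1 N), φ (fun i => f (m i))) / (N : ℝ) ^ k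

/-- the term of the sum of Q1 -/
noncomputable def term (f : ℕ → ℕ) (k N : ℕ) (l : Fin k → ℕ) : ℝ :=
  (((Icc 1 N).filter (fun n => ∀ i : Fin k, f (n + i) = l i)).card : ℝ) / N -
    ∏ i, (((Icc 1 N).filter (fun n => f n = l i)).card : ℝ) / N

lemma prob_P (f : ℕ → ℕ) (k N : ℕ) (l : Fin k → ℕ) :
    (((Icc 1 N).filter (fun n => ∀ i : Fin k, f (n + i) = l i)).card : ℝ) / N =
      empf f N (fun z => if z = l then 1 else 0) := by
  unfold empf
  congr 1
  rw [← sum_boole]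
  refine sum_congr rfl fun n _ => ?_
  congr 1
  exact propext ⟨fun h => funext h, fun h i => congrFun h i⟩

lemma prob_Q (f : ℕ → ℕ) (k N : ℕ) (l : Fin k → ℕ) :
    ∏ i, (((Icc 1 N).filter (fun n => f n = l i)).card : ℝ) / N =
      prdf f N (fun z => if z = l then 1 else 0) := by
  unfold prdf
  rw [prod_div_distrib, prod_const, card_univ, Fintype.card_fin]
  congr 1
  rw [← Nat.cast_prod, ← Fintype.card_piFinset]
  rw [show (∑ m ∈ Fintype.piFinset (fun _ : Fin k => Icc 1 N), if (fun i => f (m i)) = l then (1 : ℝ) else 0) =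
    (((Fintype.piFinset (fun _ : Fin k => Icc 1 N)).filter (fun m => (fun i => f (m i)) = l)).card : ℝ) from
      sum_boole _ _]
  congr 2
  ext m
  simp only [Fintype.mem_piFinset, mem_filter]
  constructor
  · intro h
    exact ⟨fun i => (h i).1, funext fun i => (h i).2⟩
  · rintro ⟨h1, h2⟩ i
    exact ⟨h1 i, congrFun h2 i⟩

/-- a box which contains all the values -/
lemma exists_box (f : ℕ → ℕ) (k N : ℕ) : ∃ F : Finset (Fin k → ℕ),
    (∀ n ∈ Icc 1 N, (fun i : Fin k => f (n + i)) ∈ F) ∧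
    (∀ m ∈ Fintype.piFinset (fun _ : Fin k => Icc 1 N), (fun i => f (m i)) ∈ F) := by
  refine ⟨(Icc 1 N).image (fun n => fun i : Fin k => f (n + i)) ∪
    (Fintype.piFinset (fun _ : Fin k => Icc 1 N)).image (fun m i => f (m i)), ?_, ?_⟩
  · intro n hn
    exact mem_union_left _ (mem_image_of_mem _ hn)
  · intro m hm
    exact mem_union_right _ (mem_image_of_mem (fun (m : Fin k → ℕ) i => f (m i)) hm)

lemma empf_sum (f : ℕ → ℕ) (k N : ℕ) (F : Finset (Fin k → ℕ))
    (hF : ∀ n ∈ Icc 1 N, (fun i : Fin k => f (n + i)) ∈ F) (φ : (Fin k → ℕ) → ℝ) :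
    empf f N φ = ∑ l ∈ F, empf f N (fun z => if z = l then 1 else 0) * φ l := by
  unfold empf
  simp_rw [div_mul_eq_mul_div]
  rw [← sum_div]
  congr 1
  simp_rw [sum_mul]
  rw [sum_comm]
  refine sum_congr rfl fun n hn => ?_
  rw [sum_eq_single (fun i : Fin k => f (n + i))]
  · simp
  · intro l _ hl
    rw [if_neg (fun h => hl h.symm), zero_mul]
  · intro h
    exact absurd (hF n hn) h

lemma prdf_sum (f : ℕ → ℕ) (k N : ℕ) (F : Finset (Fin k → ℕ))
    (hF : ∀ m ∈ Fintype.piFinset (fun _ : Fin k => Icc 1 N), (fun i => f (m i)) ∈ F) (φ : (Fin k → ℕ) → ℝ) :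
    prdf f N φ = ∑ l ∈ F, prdf f N (fun z => if z = l then 1 else 0) * φ l := by
  unfold prdf
  simp_rw [div_mul_eq_mul_div]
  rw [← sum_div]
  congr 1
  simp_rw [sum_mul]
  rw [sum_comm]
  refine sum_congr rfl fun m hm => ?_
  rw [sum_eq_single (fun i : Fin k => f (m i))]
  · simp
  · intro l _ hl
    rw [if_neg (fun h => hl h.symm), zero_mul]
  · intro h
    exact absurd (hF m hm) h

lemma term_eq (f : ℕ → ℕ) (k N : ℕ) (l : Fin k → ℕ) :
    term f k N l = empf f N (fun z => if z = l then 1 else 0) - prdf f N (fun z => if z = l then 1 else 0) := by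
  rw [← prob_P, ← prob_Q]
  rfl

lemma term_zero (f : ℕ → ℕ) (k N : ℕ) (F : Finset (Fin k → ℕ))
    (h1 : ∀ n ∈ Icc 1 N, (fun i : Fin k => f (n + i)) ∈ F)
    (h2 : ∀ m ∈ Fintype.piFinset (fun _ : Fin k => Icc 1 N), (fun i => f (m i)) ∈ F) (l : Fin k → ℕ) (hl : l ∉ F) :
    term f k N l = 0 := by
  rw [term_eq]
  unfold empf prdf
  rw [sum_eq_zero, sum_eq_zero]
  · simp
  · intro m hm
    apply if_neg
    rintro rfl
    exact hl (h2 m hm)
  · intro n hn
    apply if_neg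
    rintro rfl
    exact hl (h1 n hn)

/-- the sum of Q1 over all the vectors -/
noncomputable def disc (f : ℕ → ℕ) (k N : ℕ) : ℝ := ∑' l : Fin k → ℕ, |term f k N l|

lemma disc_eq (f : ℕ → ℕ) (k N : ℕ) (F : Finset (Fin k → ℕ))
    (h1 : ∀ n ∈ Icc 1 N, (fun i : Fin k => f (n + i)) ∈ F)
    (h2 : ∀ m ∈ Fintype.piFinset (fun _ : Fin k => Icc 1 N), (fun i => f (m i)) ∈ F) :
    disc f k N = ∑ l ∈ F, |term f k N l| := by
  unfold disc
  rw [tsum_eq_sum]
  intro l hl
  rw [term_zero f k N F h1 h2 l hl, abs_zero]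

/-- bounds for all test functions give a bound for the sum -/
lemma disc_le (f : ℕ → ℕ) (k N : ℕ) (ε : ℝ)
    (h : ∀ φ : (Fin k → ℕ) → ℝ, Bd φ → |empf f N φ - prdf f N φ| ≤ ε) : disc f k N ≤ ε := by
  obtain ⟨F, h1, h2⟩ := exists_box f k N
  set φ : (Fin k → ℕ) → ℝ := fun l => if 0 ≤ term f k N l then 1 else -1 with hφ
  have hb : Bd φ := by
    intro z
    simp only [hφ]
    split_ifs <;> simp
  have h3 := h φ hb
  have h4 : disc f k N = empf f N φ - prdf f N φ := by
    rw [disc_eq f k N F h1 h2, empf_sum f k N F h1, prdf_sum f k N F h2, ← sum_sub_distrib]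
    refine sum_congr rfl fun l _ => ?_
    rw [← sub_mul, ← term_eq]
    simp only [hφ]
    split_ifs with h5
    · rw [abs_of_nonneg h5, mul_one]
    · rw [abs_of_neg (not_le.1 h5)]
      ring
  rw [h4]
  exact le_trans (le_abs_self _) h3

lemma empf_one (f : ℕ → ℕ) (k N : ℕ) (hN : 1 ≤ N) : empf f N (fun _ : Fin k → ℕ => 1) = 1 := by
  unfold empf
  have : (N : ℝ) ≠ 0 := by positivity
  simp [this]

lemma prdf_one (f : ℕ → ℕ) (k N : ℕ) (hN : 1 ≤ N) : prdf f N (fun _ : Fin k → ℕ => 1) = 1 := by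
  unfold prdf
  have : (N : ℝ) ≠ 0 := by positivity
  simp [this]

/-- an event gives a lower bound for the sum over a set of vectors -/
lemma disc_ge (f : ℕ → ℕ) (k N : ℕ) (hN : 1 ≤ N) (φ : (Fin k → ℕ) → ℝ) (hφ : ∀ z, φ z = 1 ∨ φ z = 0) :
    2 * (empf f N φ - prdf f N φ) ≤ disc f k N := by
  obtain ⟨F, h1, h2⟩ := exists_box f k N
  have h3 : empf f N φ - prdf f N φ = ∑ l ∈ F, term f k N l * φ l := by
    rw [empf_sum f k N F h1, prdf_sum f k N F h2, ← sum_sub_distrib]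
    refine sum_congr rfl fun l _ => ?_
    rw [← sub_mul, ← term_eq]
  have h4 : (0 : ℝ) = ∑ l ∈ F, term f k N l := by
    have h5 := empf_one f k N hN
    have h6 := prdf_one f k N hN
    rw [empf_sum f k N F h1] at h5
    rw [prdf_sum f k N F h2] at h6
    simp only [mul_one] at h5 h6
    rw [sum_congr rfl (fun l _ => term_eq f k N l), sum_sub_distrib, h5, h6, sub_self]
  have h5 : 2 * (empf f N φ - prdf f N φ) = ∑ l ∈ F, term f k N l * (2 * φ l - 1) := by
    rw [h3, mul_sum]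
    calc _ = ∑ l ∈ F, 2 * (term f k N l * φ l) - ∑ l ∈ F, term f k N l := by rw [← h4, sub_zero]
      _ = _ := by
        rw [← sum_sub_distrib]
        refine sum_congr rfl fun l _ => ?_
        ring
  rw [h5, disc_eq f k N F h1 h2]
  refine sum_le_sum fun l _ => ?_
  rcases hφ l with h6 | h6
  · rw [h6]
    norm_num
    exact le_abs_self _
  · rw [h6]
    norm_num
    exact neg_le_abs _

end Pool.Agent.H19.OM
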