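import Pool.Agent.H19.OM.Cl2
import Pool.Agent.H19.OM.Stm4

set_option autoImplicit false

/-!
# Project OM: the 0-2 law
-/

namespace Pool.Agent.H19.OM

open Finset Filter Topology

/-- (LOW) without the condition `k ≤ N` -/
def S_LOW2 : Prop := ∀ ε : ℝ, 0 < ε → ∃ C : ℝ, 0 < C ∧ ∀ y N k : ℕ, C ≤ y → y ≤ 2 * N →
  C * Real.log (Real.log y) ≤ k → ∃ A : Set (Fin k → ℕ), ∀ φ : (Fin k → ℕ) → ℝ,
  (∀ z, (z ∈ A → φ z = 1) ∧ (z ∉ A → φ z = 0)) → 1 - ε ≤ emp y N φ ∧ prd y N φ ≤ ε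

theorem t_LOW2 (hQ : S_QLO) (hP : S_PLO) : S_LOW2 := by
  intro ε hε
  obtain ⟨C₁, hC₁, hQ⟩ := hQ
  obtain ⟨C₂, hC₂, hP⟩ := hP
  -- the number a
  obtain ⟨a, ha⟩ := exists_nat_ge (2 * C₂ / ε + 1)
  have ha1 : (1 : ℝ) ≤ a := by
    have : 0 ≤ 2 * C₂ / ε := by positivity
    linarith
  have ha1' : 1 ≤ a := by exact_mod_cast ha1
  have haε : C₂ / a ≤ ε / 2 := by
    rw [div_le_iff₀ (by linarith)]
    have h1 : 2 * C₂ / ε ≤ a := by linarith
    rw [div_le_iff₀ hε] at h1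
    linarith
  -- the constant for m
  obtain ⟨c, hc⟩ := exists_nat_ge (2 * (C₁ * 2 ^ a) * 2 / ε + 2 * C₂ * 2 / ε + 1)
  have hc1 : (1 : ℝ) ≤ c := by
    have h1 : 0 ≤ 2 * (C₁ * 2 ^ a) * 2 / ε := by positivity
    have h2 : 0 ≤ 2 * C₂ * 2 / ε := by positivity
    linarith
  -- growth: (4 c 2^a x)^8 * 2 ≤ exp (exp x)
  have hgrow : ∀ᶠ x : ℝ in atTop, 2 * (2 * c * 2 ^ a * x) ^ 8 ≤ Real.exp x := by
    have h1 := Real.tendsto_pow_mul_exp_neg_atTop_nhds_zero 8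
    have h2 : ∀ᶠ x : ℝ in atTop, x ^ 8 * Real.exp (-x) < 1 / (2 * (2 * c * 2 ^ a) ^ 8) := by
      refine h1.eventually (gt_mem_nhds (by positivity))
    filter_upwards [h2] with x hx
    rw [Real.exp_neg, ← div_eq_mul_inv, div_lt_div_iff₀ (Real.exp_pos _) (by positivity), one_mul] at hx
    calc 2 * (2 * c * 2 ^ a * x) ^ 8 = x ^ 8 * (2 * (2 * c * 2 ^ a) ^ 8) := by ring
      _ ≤ Real.exp x := hx.le
  obtain ⟨x₀, hx₀⟩ := eventually_atTop.1 hgrow
  set X := max x₀ 1 with hX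
  refine ⟨Real.exp (Real.exp X) + 2 * c * 2 ^ a + 3, by positivity, ?_⟩
  intro y N k hy hyN hk
  set ll := Real.log (Real.log y) with hll
  have hyE : Real.exp (Real.exp X) ≤ y := by
    have : (0 : ℝ) ≤ 2 * c * 2 ^ a := by positivity
    linarith
  have hy0 : (0 : ℝ) < y := lt_of_lt_of_le (Real.exp_pos _) hyE
  have hlog : Real.exp X ≤ Real.log y := (Real.le_log_iff_exp_le hy0).2 hyE
  have hlog0 : 0 < Real.log y := lt_of_lt_of_le (Real.exp_pos _) hlog
  have hllX : X ≤ ll := (Real.le_log_iff_exp_le hlog0).2 hlog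
  have hll1 : 1 ≤ ll := le_trans (le_max_right _ _) hllX
  have hy3 : 3 ≤ y := by
    have h1 : (3 : ℝ) ≤ y := by
      have h1 : (0 : ℝ) ≤ 2 * c * 2 ^ a := by positivity
      have h2 := Real.exp_pos (Real.exp X)
      linarith
    exact_mod_cast h1
  have hN1 : 1 ≤ N := by omega
  -- m
  set m := ⌈(c : ℝ) * ll⌉₊ with hm
  have hcll : 1 ≤ (c : ℝ) * ll := by nlinarith
  have hm_ge : (c : ℝ) * ll ≤ m := Nat.le_ceil _
  have hm_le : (m : ℝ) ≤ 2 * c * ll := by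
    have := Nat.ceil_lt_add_one (show 0 ≤ (c : ℝ) * ll by linarith)
    have h2 : (m : ℝ) < (c : ℝ) * ll + 1 := this
    linarith
  have hm1 : 1 ≤ m := by
    have : (1 : ℝ) ≤ m := le_trans hcll hm_ge
    exact_mod_cast this
  have hm0 : (0 : ℝ) < m := by exact_mod_cast hm1
  have hmk : m * 2 ^ a ≤ k := by
    have h1 : (m : ℝ) * 2 ^ a ≤ k := by
      calc (m : ℝ) * 2 ^ a ≤ 2 * c * ll * 2 ^ a := mul_le_mul_of_nonneg_right hm_le (by positivity)
        _ = (2 * c * 2 ^ a) * ll := by ring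
        _ ≤ (Real.exp (Real.exp X) + 2 * c * 2 ^ a + 3) * ll := by
          refine mul_le_mul_of_nonneg_right ?_ (by linarith)
          have := Real.exp_pos (Real.exp X)
          linarith
        _ ≤ k := hk
    exact_mod_cast h1
  have hmN : (m * 2 ^ a) ^ 8 ≤ N := by
    have h1 : ((m : ℝ) * 2 ^ a) ^ 8 ≤ N := by
      have h2 : 2 * (2 * c * 2 ^ a * ll) ^ 8 ≤ Real.exp ll := hx₀ ll (le_trans (le_max_left _ _) hllX)
      have h3 : Real.exp ll = Real.log y := Real.exp_log hlog0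
      have h4 : Real.log y ≤ y := by
        have := Real.log_le_sub_one_of_pos hy0
        linarith
      have h5 : (y : ℝ) ≤ 2 * N := by exact_mod_cast hyN
      have h6 : ((m : ℝ) * 2 ^ a) ^ 8 ≤ (2 * c * 2 ^ a * ll) ^ 8 := by
        refine pow_le_pow_left₀ (by positivity) ?_ 8
        calc (m : ℝ) * 2 ^ a ≤ 2 * c * ll * 2 ^ a := mul_le_mul_of_nonneg_right hm_le (by positivity)
          _ = _ := by ring
      linarith
    exact_mod_cast h1
  -- the two bounds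
  have hN0 : (0 : ℝ) < N := by exact_mod_cast hN1
  have hratio : (1 + ll) / m ≤ 2 / c := by
    rw [div_le_div_iff₀ hm0 (by linarith)]
    nlinarith
  have hQ' := hQ y N a m k hy3 hN1 ha1' hm1 hmk
  have hP' := hP y N a m hy3 ha1' hm1 hmN
  have ha2 : (1 : ℝ) ≤ (a : ℝ) ^ 2 := by nlinarith
  refine ⟨evt a m k, fun φ hφ => ⟨?_, ?_⟩⟩
  · refine le_trans ?_ (emp_evt y N a m k hN1 hmk φ hφ)
    have h1 : (((Icc 1 N).filter (fun n => ∀ r < 2 ^ a,
      stat (2 ^ a) m r (fun i => (Om y (n + i) : ℝ)) < (a : ℝ) * m / 2)).card : ℝ) / N ≤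
        C₂ / a + C₂ * (1 + ll) / ((a : ℝ) ^ 2 * m) := by
      rw [div_le_iff₀ hN0]
      exact hP'
    have h2 : C₂ * (1 + ll) / ((a : ℝ) ^ 2 * m) ≤ C₂ * (2 / c) := by
      calc C₂ * (1 + ll) / ((a : ℝ) ^ 2 * m) = C₂ * ((1 + ll) / m) / (a : ℝ) ^ 2 := by
            field_simp
        _ ≤ C₂ * ((1 + ll) / m) / 1 := by
            refine div_le_div_of_nonneg_left ?_ one_pos ha2
            positivity
        _ ≤ C₂ * (2 / c) := by
            rw [div_one]
            exact mul_le_mul_of_nonneg_left hratio hC₂.le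
    have h3 : C₂ * (2 / c) ≤ ε / 2 := by
      rw [mul_div_assoc', div_le_iff₀ (by linarith)]
      have h4 : 2 * C₂ * 2 / ε ≤ c := by
        have : 0 ≤ 2 * (C₁ * 2 ^ a) * 2 / ε := by positivity
        linarith
      rw [div_le_iff₀ hε] at h4
      linarith
    linarith
  · rw [prd_evt y N a m k φ hφ, div_le_iff₀ (by positivity)]
    refine le_trans hQ' ?_
    refine mul_le_mul_of_nonneg_right ?_ (by positivity)
    have h2 : C₁ * 2 ^ a * (1 + ll) / ((a : ℝ) ^ 2 * m) ≤ C₁ * 2 ^ a * (2 / c) := by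
      calc C₁ * 2 ^ a * (1 + ll) / ((a : ℝ) ^ 2 * m) = C₁ * 2 ^ a * ((1 + ll) / m) / (a : ℝ) ^ 2 := by
            field_simp
        _ ≤ C₁ * 2 ^ a * ((1 + ll) / m) / 1 := by
            refine div_le_div_of_nonneg_left ?_ one_pos ha2
            positivity
        _ ≤ C₁ * 2 ^ a * (2 / c) := by
            rw [div_one]
            exact mul_le_mul_of_nonneg_left hratio (by positivity)
    have h3 : C₁ * 2 ^ a * (2 / c) ≤ ε := by
      rw [mul_div_assoc', div_le_iff₀ (by linarith)]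
      have h4 : 2 * (C₁ * 2 ^ a) * 2 / ε ≤ c := by
        have : 0 ≤ 2 * C₂ * 2 / ε := by positivity
        linarith
      rw [div_le_iff₀ hε] at h4
      have h5 : 0 ≤ C₁ * 2 ^ a := by positivity
      nlinarith
    linarith


lemma low_disc2 (hL : S_LOW2) : ∀ ε : ℝ, 0 < ε → ∃ C : ℝ, 0 < C ∧ ∀ y N k : ℕ, C ≤ y → y ≤ 2 * N →
    C * Real.log (Real.log y) ≤ k → 2 - ε ≤ disc (Om y) k N := by
  classical
  intro ε hε
  obtain ⟨C, hC, h⟩ := hL (ε / 4) (by linarith)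
  refine ⟨C, hC, fun y N k h1 h2 h3 => ?_⟩
  obtain ⟨A, hA⟩ := h y N k h1 h2 h3
  have h5 := hA (fun z => if z ∈ A then 1 else 0) (fun z => ⟨fun h => if_pos h, fun h => if_neg h⟩)
  have hy : 1 ≤ y := by
    have : (0 : ℝ) < y := lt_of_lt_of_le hC h1
    exact_mod_cast this
  have hN : 1 ≤ N := by omega
  have h6 := disc_ge (Om y) k N hN (fun z => if z ∈ A then 1 else 0) (fun z => by
    by_cases hz : z ∈ A
    · left; exact if_pos hz
    · right; exact if_neg hz)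
  rw [emp_empf, prd_prdf] at h5
  linarith [h5.1, h5.2]

/-- the condition on `N` -/
def cond3 (y N : ℕ) : Prop := (y : ℝ) ^ (Real.log (Real.log y) ^ 3) ≤ N

lemma cond3_pos {y N : ℕ} (hy : 1 ≤ y) (h : cond3 y N) : 1 ≤ N := by
  have h1 : (0 : ℝ) < (y : ℝ) ^ (Real.log (Real.log y) ^ 3) := Real.rpow_pos_of_pos (by positivity) _
  have h2 : (0 : ℝ) < N := lt_of_lt_of_le h1 h
  exact_mod_cast h2

lemma big (X : ℝ) : ∃ A : ℕ, ∀ y : ℕ, A ≤ y → X ≤ Real.log (Real.log y) ∧ 1 ≤ y := by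
  obtain ⟨A, hA⟩ := exists_nat_ge (Real.exp (Real.exp X))
  refine ⟨A, fun y hy => ?_⟩
  have hyE : Real.exp (Real.exp X) ≤ y := le_trans hA (by exact_mod_cast hy)
  have hy0 : (0 : ℝ) < y := lt_of_lt_of_le (Real.exp_pos _) hyE
  have hlog : Real.exp X ≤ Real.log y := (Real.le_log_iff_exp_le hy0).2 hyE
  have hlog0 : 0 < Real.log y := lt_of_lt_of_le (Real.exp_pos _) hlog
  exact ⟨(Real.le_log_iff_exp_le hlog0).2 hlog, by exact_mod_cast hy0⟩

/-- upper bound -/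
theorem up3 (hE : S_ERR3) (hU : S_UPJ) : ∀ ε : ℝ, 0 < ε → ∃ δ : ℝ, 0 < δ ∧ ∃ A : ℕ, ∀ y N k : ℕ, A ≤ y →
    cond3 y N → 1 ≤ k → (k : ℝ) ≤ δ * Real.log (Real.log y) → disc (Om y) k N ≤ ε := by
  intro ε hε
  obtain ⟨δ, hδ, A₁, hU⟩ := hU (ε / 3) (by linarith)
  obtain ⟨A₂, hE⟩ := hE 1 le_rfl (ε / 3) (by linarith)
  obtain ⟨A₃, hA₃⟩ := big 1
  refine ⟨min δ 1, lt_min hδ one_pos, max A₁ (max A₂ A₃), fun y N k hy hN hk hkd => ?_⟩
  have hy1 : A₁ ≤ y := le_trans (le_max_left _ _) hy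
  have hy2 : A₂ ≤ y := le_trans (le_trans (le_max_left _ _) (le_max_right _ _)) hy
  have hy3 : A₃ ≤ y := le_trans (le_trans (le_max_right _ _) (le_max_right _ _)) hy
  have hll1 := (hA₃ y hy3).1
  set ll := Real.log (Real.log y) with hll
  have hk1 : (k : ℝ) ≤ δ * ll := le_trans hkd (mul_le_mul_of_nonneg_right (min_le_left _ _) (by linarith))
  have hk2 : (k : ℝ) ≤ 1 * ll := le_trans hkd (mul_le_mul_of_nonneg_right (min_le_right _ _) (by linarith))
  refine disc_le _ _ _ _ fun φ hφ => ?_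
  have h1 := hU y k hy1 hk hk1 φ hφ
  have h2 := hE y N k hy2 hN hk hk2 φ hφ
  rw [← emp_empf, ← prd_prdf]
  have h3 := abs_le.1 h1
  have h4 := abs_le.1 h2.1
  have h5 := abs_le.1 h2.2
  rw [abs_le]
  constructor <;> linarith [h3.1, h3.2, h4.1, h4.2, h5.1, h5.2]

/-- the sum stays below `2` for `k ≤ C log log y` -/
theorem upt3 (hE : S_ERR3) (hU : S_UPT) : ∀ C : ℝ, 1 ≤ C → ∃ η : ℝ, 0 < η ∧ ∃ A : ℕ, ∀ y N k : ℕ, A ≤ y →
    cond3 y N → 1 ≤ k → (k : ℝ) ≤ C * Real.log (Real.log y) → disc (Om y) k N ≤ 2 - η := by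
  intro C hC
  obtain ⟨η, hη, A₁, hU⟩ := hU C hC
  obtain ⟨A₂, hE⟩ := hE C hC (η / 4) (by linarith)
  refine ⟨η / 2, by linarith, max A₁ A₂, fun y N k hy hN hk hkd => ?_⟩
  have hy1 : A₁ ≤ y := le_trans (le_max_left _ _) hy
  have hy2 : A₂ ≤ y := le_trans (le_max_right _ _) hy
  refine disc_le _ _ _ _ fun φ hφ => ?_
  have h1 := hU y k hy1 hk hkd φ hφ
  have h2 := hE y N k hy2 hN hk hkd φ hφ
  rw [← emp_empf, ← prd_prdf]
  have h3 := abs_le.1 h1
  have h4 := abs_le.1 h2.1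
  have h5 := abs_le.1 h2.2
  rw [abs_le]
  constructor <;> linarith [h3.1, h3.2, h4.1, h4.2, h5.1, h5.2]

/-- lower bound -/
theorem cl3 (hE : S_ERR3) (hG : S_CG) (hR : S_RES) : ∀ c : ℝ, 0 < c → ∃ η : ℝ, 0 < η ∧ ∃ A : ℕ,
    ∀ y N k : ℕ, A ≤ y → cond3 y N → c * Real.log (Real.log y) ≤ k → η ≤ disc (Om y) k N := by
  intro c hc
  have hc4 : 0 < min (c / 4) 1 := lt_min (by linarith) one_pos
  obtain ⟨η, hη, A₁, hG⟩ := hG (min (c / 4) 1) hc4
  obtain ⟨A₂, hE⟩ := hE 4 (by norm_num) (η / 4) (by linarith)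
  obtain ⟨A₃, hA₃⟩ := big (max (4 / c) 1)
  refine ⟨η / 2, by linarith, max A₁ (max A₂ A₃), fun y N k hy hN hk => ?_⟩
  have hy1 : A₁ ≤ y := le_trans (le_max_left _ _) hy
  have hy2 : A₂ ≤ y := le_trans (le_trans (le_max_left _ _) (le_max_right _ _)) hy
  have hy3 : A₃ ≤ y := le_trans (le_trans (le_max_right _ _) (le_max_right _ _)) hy
  have hllX := (hA₃ y hy3).1
  have hyN := (hA₃ y hy3).2
  set ll := Real.log (Real.log y) with hll
  have hll1 : 1 ≤ ll := le_trans (le_max_right _ _) hllX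
  have hllc : 4 / c ≤ ll := le_trans (le_max_left _ _) hllX
  have hk4 : (4 : ℝ) ≤ k := by
    refine le_trans ?_ hk
    rw [div_le_iff₀ hc] at hllc
    linarith
  have hk4' : 4 ≤ k := by exact_mod_cast hk4
  set m := min (k / 2) ⌈ll⌉₊ with hm
  have hmk : 2 * m ≤ k := by
    have : m ≤ k / 2 := min_le_left _ _
    omega
  have hm2 : (m : ℝ) ≤ ll + 1 := by
    have h1 : m ≤ ⌈ll⌉₊ := min_le_right _ _
    have h2 : (⌈ll⌉₊ : ℝ) < ll + 1 := Nat.ceil_lt_add_one (by linarith)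
    have h3 : (m : ℝ) ≤ (⌈ll⌉₊ : ℝ) := by exact_mod_cast h1
    linarith
  have hm3 : min (c / 4) 1 * ll ≤ m := by
    rcases min_choice (k / 2) ⌈ll⌉₊ with h1 | h1
    · rw [← hm] at h1
      rw [h1]
      have h2 : (k : ℝ) / 4 ≤ ((k / 2 : ℕ) : ℝ) := by
        have h3 : k ≤ 4 * (k / 2) := by omega
        have h4 : (k : ℝ) ≤ 4 * ((k / 2 : ℕ) : ℝ) := by exact_mod_cast h3
        linarith
      refine le_trans ?_ h2
      calc min (c / 4) 1 * ll ≤ c / 4 * ll := mul_le_mul_of_nonneg_right (min_le_left _ _) (by linarith)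
        _ = c * ll / 4 := by ring
        _ ≤ k / 4 := by linarith
    · rw [← hm] at h1
      rw [h1]
      refine le_trans ?_ (Nat.le_ceil ll)
      calc min (c / 4) 1 * ll ≤ 1 * ll := mul_le_mul_of_nonneg_right (min_le_right _ _) (by linarith)
        _ = ll := one_mul _
  have hm1 : 1 ≤ m := by
    refine le_min (by omega) ?_
    have : (0 : ℝ) < ll := by linarith
    exact Nat.ceil_pos.2 this
  have hN1 : 1 ≤ N := cond3_pos hyN hN
  have hbd : Bd (tst m (1 / (2 * m))) := fun z => Real.abs_cos_le_one _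
  have h1 := hG y m hy1 hm3 hm2
  have h2 := hE y N (2 * m) hy2 hN (by omega) (by push_cast; linarith) (tst m (1 / (2 * m))) hbd
  have h3 := hR y N k (2 * m) hmk (tst m (1 / (2 * m))) hN1
  have h6 := disc_ge_test (Om y) k N (fun z => tst m (1 / (2 * m)) (fun i => z (Fin.castLE hmk i)))
    (fun z => Real.abs_cos_le_one _)
  refine le_trans ?_ h6
  rw [← emp_empf, ← prd_prdf, h3.1, h3.2]
  have h4 := abs_le.1 h2.1
  have h5 := abs_le.1 h2.2
  rw [abs_sub_comm]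
  refine le_trans ?_ (le_abs_self _)
  linarith [h4.1, h4.2, h5.1, h5.2]

lemma tendsto_ll {y : ℕ → ℕ} (hy : Tendsto y atTop atTop) :
    Tendsto (fun n => Real.log (Real.log (y n))) atTop atTop :=
  Real.tendsto_log_atTop.comp (Real.tendsto_log_atTop.comp (tendsto_natCast_atTop_atTop.comp hy))

/-- **The 0-2 law.** -/
theorem zero_two (hE : S_ERR3) (hU : S_UPJ) (hT : S_UPT) (hG : S_CG) (hR : S_RES) (hL : S_LOW2) (y k N : ℕ → ℕ)
    (hy : Tendsto y atTop atTop) (h : ∀ᶠ n in atTop, 1 ≤ k n ∧ cond3 (y n) (N n)) :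
    (Tendsto (fun n => disc (Om (y n)) (k n) (N n)) atTop (𝓝 0) ↔
      Tendsto (fun n => (k n : ℝ) / Real.log (Real.log (y n))) atTop (𝓝 0)) ∧
    (Tendsto (fun n => disc (Om (y n)) (k n) (N n)) atTop (𝓝 2) ↔
      Tendsto (fun n => (k n : ℝ) / Real.log (Real.log (y n))) atTop atTop) := by
  have hll := tendsto_ll hy
  have hyR : Tendsto (fun n => (y n : ℝ)) atTop atTop := tendsto_natCast_atTop_atTop.comp hy
  have hpos : ∀ᶠ n in atTop, 1 ≤ N n := by
    filter_upwards [h, hy.eventually_ge_atTop 1] with n h1 h2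
    exact cond3_pos h2 h1.2
  have hyN : ∀ᶠ n in atTop, y n ≤ 2 * N n := by
    filter_upwards [h, hy.eventually_ge_atTop 1, hll.eventually_ge_atTop 1] with n h1 h2 h3
    have h4 : (1 : ℝ) ≤ y n := by exact_mod_cast h2
    have h5 : (y n : ℝ) ≤ N n := by
      calc (y n : ℝ) = (y n : ℝ) ^ (1 : ℝ) := (Real.rpow_one _).symm
        _ ≤ (y n : ℝ) ^ (Real.log (Real.log (y n)) ^ 3) :=
          Real.rpow_le_rpow_of_exponent_le h4 (one_le_pow₀ h3)
        _ ≤ N n := h1.2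
    have h6 : y n ≤ N n := by exact_mod_cast h5
    omega
  refine ⟨⟨fun h0 => ?_, fun h0 => ?_⟩, ⟨fun h0 => ?_, fun h0 => ?_⟩⟩
  · rw [tendsto_order]
    constructor
    · intro a ha
      filter_upwards [hll.eventually_gt_atTop 0] with n hn
      exact lt_of_lt_of_le ha (by positivity)
    · intro a ha
      obtain ⟨η, hη, A, hA⟩ := cl3 hE hG hR a ha
      filter_upwards [h, hll.eventually_gt_atTop 0, hy.eventually_ge_atTop A, h0.eventually (gt_mem_nhds hη)]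
        with n hn1 hn2 hn3 hn4
      rw [div_lt_iff₀ hn2]
      by_contra hcon
      exact absurd (hA (y n) (N n) (k n) hn3 hn1.2 (not_lt.1 hcon)) (not_le.2 hn4)
  · rw [tendsto_order]
    constructor
    · intro a ha
      filter_upwards with n
      exact lt_of_lt_of_le ha (tsum_nonneg fun _ => abs_nonneg _)
    · intro a ha
      obtain ⟨δ, hδ, A, hA⟩ := up3 hE hU (a / 2) (by linarith)
      filter_upwards [h, hll.eventually_gt_atTop 0, hy.eventually_ge_atTop A, h0.eventually (gt_mem_nhds hδ)]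
        with n hn1 hn2 hn3 hn4
      rw [div_lt_iff₀ hn2] at hn4
      have := hA (y n) (N n) (k n) hn3 hn1.2 hn1.1 hn4.le
      linarith
  · rw [tendsto_atTop]
    intro C
    obtain ⟨η, hη, A, hA⟩ := upt3 hE hT (max C 1) (le_max_right _ _)
    filter_upwards [h, hll.eventually_gt_atTop 0, hy.eventually_ge_atTop A,
      h0.eventually (lt_mem_nhds (show 2 - η < 2 by linarith))] with n hn1 hn2 hn3 hn4
    rw [le_div_iff₀ hn2]
    by_contra hcon
    have h5 : (k n : ℝ) ≤ max C 1 * Real.log (Real.log (y n)) :=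
      le_trans (not_le.1 hcon).le (mul_le_mul_of_nonneg_right (le_max_left _ _) hn2.le)
    exact absurd (hA (y n) (N n) (k n) hn3 hn1.2 hn1.1 h5) (not_le.2 hn4)
  · rw [tendsto_order]
    constructor
    · intro a ha
      obtain ⟨C, hC, hA⟩ := low_disc2 hL ((2 - a) / 2) (by linarith)
      filter_upwards [hyN, hll.eventually_gt_atTop 0, hyR.eventually_ge_atTop C, h0.eventually_ge_atTop C]
        with n hn1 hn2 hn3 hn4
      rw [le_div_iff₀ hn2] at hn4
      have := hA (y n) (N n) (k n) hn3 hn1 hn4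
      linarith
    · intro a ha
      filter_upwards [hpos] with n hn
      exact lt_of_le_of_lt (disc_le_two _ _ _ hn) ha

end Pool.Agent.H19.OM
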